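import Mathlib
import Pool.Agent.Lib.MP_b4f117_lc.AC.Stm

/-!
# Piece ecert: from vertices to entries at level `0`
-/

set_option autoImplicit false

namespace Pool.Agent.Lib.MP_b4f117_lc.AC

/-- the entries within a set of vertices -/
private theorem p_ecert_card {G : Type} [Fintype G] [DecidableEq G] {q w : ℕ}
    (U : Finset (Vx G q Unit)) (hU : U.card ≤ w) :
    ∃ E : Finset (Ent G q Unit), E.card ≤ w ^ Fintype.card G ∧ ∀ e, Wi e U → e ∈ E := by
  classical
  refine ⟨Finset.univ.filter fun e => Wi e U, ?_, fun e he =>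
    Finset.mem_filter.2 ⟨Finset.mem_univ _, he⟩⟩
  have h1 : (Finset.univ.filter fun e : Ent G q Unit => Wi e U).card
      ≤ (Fintype.piFinset fun _ : G => U).card := by
    apply Finset.card_le_card_of_injOn (fun e g => (g, e g))
    · intro e he
      rw [Finset.mem_coe, Fintype.mem_piFinset]
      intro g
      exact (Finset.mem_filter.1 he).2 g
    · intro e _ e' _ h
      funext g
      exact (Prod.mk.inj (congrFun h g)).2
  refine h1.trans ?_
  rw [Fintype.card_piFinset, Finset.prod_const, Finset.card_univ]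
  exact Nat.pow_le_pow_left hU _

theorem p_ecert : S_ecert := by
  classical
  intro G _ _ q w T F fam Λ D hD hC hF y hy
  have h1 : ∃ l, ∀ n ∈ D l, ¬ fam n y := by
    by_contra hcon
    push Not at hcon
    exact hy ((hF y).2 hcon)
  obtain ⟨l, hl⟩ := h1
  have h2 : ∀ n, ∃ E : Finset (Ent G q Unit), E.card ≤ w ^ Fintype.card G ∧
      (n ∈ D l → ∀ y' : Ent G q Unit → Bool, (∀ e ∈ E, y' e = y e) → ¬ fam n y') := by
    intro n
    by_cases hn : n ∈ D l
    · obtain ⟨U, hU, hU'⟩ := hC l n hn y (hl n hn)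
      obtain ⟨E, hE, hE'⟩ := p_ecert_card U hU
      exact ⟨E, hE, fun _ y' hy' => hU' y' fun e he => hy' e (hE' e he)⟩
    · exact ⟨∅, by simp, fun h => absurd h hn⟩
  choose E hE hE' using h2
  refine ⟨(D l).biUnion E, ?_, ?_⟩
  · calc ((D l).biUnion E).card ≤ ∑ n ∈ D l, (E n).card := Finset.card_biUnion_le
      _ ≤ ∑ _n ∈ D l, w ^ Fintype.card G := Finset.sum_le_sum fun n _ => hE n
      _ = (D l).card * w ^ Fintype.card G := by rw [Finset.sum_const, smul_eq_mul]
      _ ≤ T * w ^ Fintype.card G := Nat.mul_le_mul_right _ (hD l)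
  · intro y' hy' hFy'
    obtain ⟨n, hn, hn'⟩ := (hF y').1 hFy' l
    exact hE' n hn y' (fun e he => hy' e (Finset.mem_biUnion.2 ⟨n, hn, he⟩)) hn'

end Pool.Agent.Lib.MP_b4f117_lc.AC
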