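import Pool.Agent.Lib.MP_b4f117_lc.AC.Stm

set_option autoImplicit false

namespace Pool.Agent.Lib.MP_b4f117_lc.AC

private theorem p_emb_fill1 {G : Type} {q B Q : ℕ} [NeZero Q] {A : Type}
    (β : Vx G q A → Fin B) (z : Ent G q (A × Fin B) → Fin Q) (y : Ent G q A → Bool)
    (e : Ent G q A) : Fill β z y (kap β e) = y e := by
  have h : kap β e = kap β (prj (kap β e)) := rfl
  rw [Fill, if_pos h]
  rfl

private theorem p_emb_fill2 {G : Type} {q B Q : ℕ} [NeZero Q] {A : Type}
    (β : Vx G q A → Fin B) (z : Ent G q (A × Fin B) → Fin Q) (y : Ent G q A → Bool)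
    (s : G → Fin q → A) (e : Ent G q (A × Fin B))
    (h : ∀ e : Ent G q A, e ≠ ent s (fun g => (e g).1) → y e = decide (z (kap β e) = 0))
    (he : e ≠ kap β (ent s (fun g => (e g).1))) :
    Fill β z y e = decide (z e = 0) := by
  rw [Fill]
  by_cases h1 : e = kap β (prj e)
  · rw [if_pos h1]
    have h2 : prj e ≠ ent s (fun g => (prj e g).1) := by
      intro h3
      apply he
      have h4 : kap β (prj e) = kap β (ent s (fun g => (prj e g).1)) := congrArg _ h3
      rw [← h1] at h4
      exact h4
    rw [h _ h2, ← h1]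
  · rw [if_neg h1]

theorem p_emb : S_emb := by
  intro G _ _ q B Q _ j
  induction j with
  | zero =>
    intro b z y
    refine ⟨fun J => rfl, fun e he => ?_⟩
    exact absurd rfl he
  | succ j ih =>
    intro b z y
    have hi := ih b.2 (fun e => z (kap b.1 e)) y
    constructor
    · intro J
      exact (p_emb_fill1 (A := Lv B j) b.1 z (Emb j b.2 (fun e => z (kap b.1 e)) y)
        (ent (pt j b.2) J)).trans (hi.1 J)
    · intro e he
      exact p_emb_fill2 (A := Lv B j) b.1 z (Emb j b.2 (fun e => z (kap b.1 e)) y)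
        (pt j b.2) e hi.2 he

theorem p_lvcard : S_lvcard := by
  intro B j
  induction j with
  | zero => rfl
  | succ j ih =>
    have h : Fintype.card (Lv B (j + 1)) = Fintype.card (Lv B j × Fin B) := rfl
    rw [h, Fintype.card_prod, ih, Fintype.card_fin, pow_succ]

end Pool.Agent.Lib.MP_b4f117_lc.AC
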