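import Pool.Agent.Lib.MP_b4f117_lc.AC.Stm

/-!
# [EW fill] Certificates after a restriction
-/

set_option autoImplicit false

namespace Pool.Agent.Lib.MP_b4f117_lc.AC

private theorem p_fill_up_inj {G : Type} {q B : ℕ} {A : Type} (β : Vx G q A → Fin B) :
    Function.Injective (up β) := by
  rintro ⟨g, a, v⟩ ⟨g', a', v'⟩ h
  simp only [up, Prod.mk.injEq] at h
  obtain ⟨h1, h2, h3, -⟩ := h
  subst h1 h2 h3
  rfl

theorem p_fill : S_fill := by
  intro G _ _ q B Q _ A _ _ w f β z hf y hy
  classical
  obtain ⟨U, hU, hUf⟩ := hf (Fill β z y) hy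
  refine ⟨U.preimage (up β) ((p_fill_up_inj β).injOn), ?_, ?_⟩
  · refine le_trans ?_ hU
    rw [← Finset.card_image_of_injective _ (p_fill_up_inj β)]
    apply Finset.card_le_card
    intro u hu
    rw [Finset.mem_image] at hu
    obtain ⟨v, hv, rfl⟩ := hu
    exact Finset.mem_preimage.mp hv
  · intro y' hy'
    apply hUf
    intro e he
    by_cases hk : e = kap β (prj e)
    · have h1 : Wi (prj e) (U.preimage (up β) ((p_fill_up_inj β).injOn)) := by
        intro g
        rw [Finset.mem_preimage]
        have h2 : (g, e g) = up β (g, prj e g) := by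
          have h3 := congrFun hk g
          rw [h3]
          rfl
        rw [← h2]
        exact he g
      simp only [Fill]
      rw [if_pos hk, if_pos hk]
      exact hy' _ h1
    · simp only [Fill]
      rw [if_neg hk, if_neg hk]

end Pool.Agent.Lib.MP_b4f117_lc.AC
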