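import Pool.Agent.Lib.MP_b4f117_lc.AC.Stm

set_option autoImplicit false

open Finset

namespace Pool.Agent.Lib.MP_b4f117_lc.AC

/-- the disjunction of finitely many circuits -/
private noncomputable def p_form_or {I J : Type} (f : J → Circ I) (S : Finset J) : Circ I :=
  Circ.gate true S.card (fun i => f (S.equivFin.symm i).1)

private theorem p_form_or_eval {I J : Type} (f : J → Circ I) (S : Finset J) (x : I → Bool) :
    (p_form_or f S).eval x = true ↔ ∃ j ∈ S, (f j).eval x = true := by
  unfold p_form_or
  rw [Circ.eval_or]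
  constructor
  · rintro ⟨i, hi⟩
    exact ⟨_, (S.equivFin.symm i).2, hi⟩
  · rintro ⟨j, hj, h⟩
    refine ⟨S.equivFin ⟨j, hj⟩, ?_⟩
    rw [Equiv.symm_apply_apply]
    exact h

private theorem p_form_or_bd {I J : Type} (f : J → Circ I) (S : Finset J) (h s : ℕ)
    (hf : ∀ j, (f j).depth ≤ h ∧ (f j).size ≤ s) :
    (p_form_or f S).depth ≤ h + 1 ∧ (p_form_or f S).size ≤ 1 + S.card * s := by
  unfold p_form_or
  constructor
  · rw [Circ.depth_gate]
    refine Nat.add_le_add_right (Finset.sup_le fun i _ => (hf _).1) 1
  · rw [Circ.size_gate]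
    refine Nat.add_le_add_left ?_ 1
    calc ∑ i : Fin S.card, (f (S.equivFin.symm i).1).size ≤ ∑ _i : Fin S.card, s :=
          sum_le_sum fun i _ => (hf _).2
      _ = S.card * s := by simp

private theorem p_form_tm (M : ℕ) : Fintype.card (Tm 1 M) ≤ 2 * M + 1 := by
  have hsurj : Function.Surjective (fun o : Option (Fin M × Bool) =>
      (match o with
        | none => ⟨∅, by simp⟩
        | some l => ⟨{l}, by simp⟩ : Tm 1 M)) := by
    rintro ⟨T, hT⟩
    rcases Nat.le_one_iff_eq_zero_or_eq_one.1 hT with h | h
    · rw [card_eq_zero] at h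
      exact ⟨none, by simp [h]⟩
    · rw [card_eq_one] at h
      obtain ⟨l, rfl⟩ := h
      exact ⟨some l, rfl⟩
  have := Fintype.card_le_of_surjective _ hsurj
  simp only [Fintype.card_option, Fintype.card_prod, Fintype.card_fin, Fintype.card_bool] at this
  omega

/-- the end of the gap which begins at `lo` -/
private theorem p_form_nx (M : ℕ) (W : Finset (Fin M)) : ∃ nx : Fin (M + 1) → Fin (M + 1),
    (∀ lo, ∀ u ∈ W, lo ≤ u.castSucc → nx lo ≤ u.castSucc) ∧
    (∀ lo, nx lo = Fin.last M ∨ ∃ u ∈ W, lo ≤ u.castSucc ∧ nx lo = u.castSucc) := by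
  have hne : ∀ lo : Fin (M + 1),
      (insert (Fin.last M) ((W.image Fin.castSucc).filter fun v => lo ≤ v)).Nonempty :=
    fun lo => insert_nonempty _ _
  refine ⟨fun lo => (insert (Fin.last M) ((W.image Fin.castSucc).filter fun v => lo ≤ v)).min'
    (hne lo), ?_, ?_⟩
  · intro lo u hu hlo
    refine min'_le _ _ ?_
    rw [mem_insert, mem_filter, mem_image]
    exact Or.inr ⟨⟨u, hu, rfl⟩, hlo⟩
  · intro lo
    have := min'_mem _ (hne lo)
    rw [mem_insert, mem_filter, mem_image] at this
    rcases this with h | ⟨⟨u, hu, h⟩, h2⟩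
    · exact Or.inl h
    · refine Or.inr ⟨u, hu, ?_, h.symm⟩
      rw [h]
      exact h2

private theorem p_form_gap (M : ℕ) (W : Finset (Fin M)) (nx : Fin (M + 1) → Fin (M + 1))
    (h1 : ∀ lo, ∀ u ∈ W, lo ≤ u.castSucc → nx lo ≤ u.castSucc)
    (h2 : ∀ lo, nx lo = Fin.last M ∨ ∃ u ∈ W, lo ≤ u.castSucc ∧ nx lo = u.castSucc) (u : Fin M) :
    u ∉ W ↔ ∃ lo ∈ insert (0 : Fin (M + 1)) (W.image Fin.succ), lo ≤ u.castSucc ∧
      u.castSucc < nx lo := by
  constructor
  · intro hu
    have hne : ((insert (0 : Fin (M + 1)) (W.image Fin.succ)).filter fun v => v ≤ u.castSucc).Nonempty :=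
      ⟨0, by simp⟩
    obtain ⟨lo, hlo⟩ : ∃ lo, lo = max' _ hne := ⟨_, rfl⟩
    have hm := max'_mem _ hne
    rw [← hlo, mem_filter] at hm
    refine ⟨lo, hm.1, hm.2, ?_⟩
    rcases h2 lo with h | ⟨v, hv, hv1, hv2⟩
    · rw [h]
      exact Fin.castSucc_lt_last u
    · rw [hv2]
      by_contra hcon
      rw [not_lt] at hcon
      have hne' : v ≠ u := fun h => hu (h ▸ hv)
      have hvu : v < u := lt_of_le_of_ne (Fin.castSucc_le_castSucc_iff.1 hcon) hne'
      have h5 : v.succ ≤ lo := by
        rw [hlo]
        refine le_max' _ _ ?_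
        rw [mem_filter, mem_insert, mem_image]
        exact ⟨Or.inr ⟨v, hv, rfl⟩, Fin.succ_le_castSucc_iff.2 hvu⟩
      exact absurd (h5.trans hv1) (not_le.2 Fin.castSucc_lt_succ)
  · rintro ⟨lo, _, h3, h4⟩ hu
    exact absurd (h1 lo u hu h3) (not_le.2 h4)

theorem p_form : S_form := by
  classical
  intro I M L P h s out par hout hpar hs
  -- index type of the family
  set J : Type := Fin (P + 1) ⊕ ((Fin L × Tm 1 M) ⊕ (Fin M ⊕ (Fin L × (Fin (M + 1) × Fin (M + 1)))))
    with hJ
  let t1 : Fin M → Bool → Tm 1 M := fun u b => ⟨{(u, b)}, by simp⟩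
  let t0 : Tm 1 M := ⟨∅, by simp⟩
  let occS : Fin M → Finset (Fin L × Tm 1 M) := fun u =>
    univ.filter fun j : Fin L × Tm 1 M => ∃ b : Bool, (u, b) ∈ (j.2.1 : Finset (Fin M × Bool))
  let gapS : Fin L → Fin (M + 1) → Fin (M + 1) → Finset (Fin L × Tm 1 M) := fun c lo hi =>
    univ.filter fun j : Fin L × Tm 1 M => j.1 = c ∧ ∃ u : Fin M, lo ≤ u.castSucc ∧ u.castSucc < hi ∧ j.2 = t1 u false
  let circ : J → Circ I := fun j => match j with
    | Sum.inl κ => par κ
    | Sum.inr (Sum.inl p) => out p
    | Sum.inr (Sum.inr (Sum.inl u)) => p_form_or out (occS u)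
    | Sum.inr (Sum.inr (Sum.inr (c, (lo, hi)))) => p_form_or out (gapS c lo hi)
  have hcardS : ∀ S : Finset (Fin L × Tm 1 M), S.card ≤ L * (2 * M + 1) := by
    intro S
    refine (card_le_univ S).trans ?_
    rw [Fintype.card_prod, Fintype.card_fin]
    exact Nat.mul_le_mul_left _ (p_form_tm M)
  have hcirc : ∀ j : J, (circ j).depth ≤ h + 1 ∧ (circ j).size ≤ 1 + (L * (2 * M + 1) + 1) * s := by
    have hsz : ∀ S : Finset (Fin L × Tm 1 M), 1 + S.card * s ≤ 1 + (L * (2 * M + 1) + 1) * s := by
      intro S
      have := hcardS S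
      gcongr
      omega
    have hsm : s ≤ 1 + (L * (2 * M + 1) + 1) * s := by
      calc s ≤ (L * (2 * M + 1) + 1) * s := Nat.le_mul_of_pos_left _ (by omega)
        _ ≤ 1 + (L * (2 * M + 1) + 1) * s := by omega
    rintro (κ | p | u | ⟨c, lo, hi⟩)
    · have := hpar κ (by omega)
      exact ⟨by have := this.1; change (par κ).depth ≤ h + 1; omega, this.2.trans hsm⟩
    · have := hout p
      exact ⟨by have := this.1; change (out p).depth ≤ h + 1; omega, this.2.trans hsm⟩
    · have := p_form_or_bd out (occS u) h s hout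
      exact ⟨this.1, this.2.trans (hsz _)⟩
    · have := p_form_or_bd out (gapS c lo hi) h s hout
      exact ⟨this.1, this.2.trans (hsz _)⟩
  let e : J ≃ Fin (Fintype.card J) := Fintype.equivFin J
  let fam : List (Circ I) := List.ofFn fun i : Fin (Fintype.card J) => circ (e.symm i)
  have hfam : ∀ j : J, fam[(e j).val]? = some (circ j) := by
    intro j
    simp only [fam, List.getElem?_ofFn]
    simp
  refine ⟨fam, ?_, ?_, ?_⟩
  · simp only [fam, List.length_ofFn, hJ, Fintype.card_sum, Fintype.card_prod, Fintype.card_fin]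
    have := Nat.mul_le_mul_left L (p_form_tm M)
    have h2 : L * ((M + 1) * (M + 1)) = L * (M + 1) ^ 2 := by ring
    omega
  · intro c hc
    simp only [fam, List.mem_ofFn] at hc
    obtain ⟨i, rfl⟩ := hc
    exact hcirc _
  · intro κ hκ W hW
    obtain ⟨nx, hn1, hn2⟩ := p_form_nx M W
    have hgap := p_form_gap M W nx hn1 hn2
    -- the conditions
    let Dc : Fin L → Finset J := fun c =>
      insert (Sum.inr (Sum.inl (c, t0)))
        (W.image (fun u => (Sum.inr (Sum.inl (c, t1 u true)) : J)) ∪
          (insert (0 : Fin (M + 1)) (W.image Fin.succ)).image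
            (fun lo => (Sum.inr (Sum.inr (Sum.inr (c, (lo, nx lo)))) : J)))
    let Dj : Unit ⊕ ({u : Fin M // u ∈ W} ⊕ Fin L) → Finset J := fun l => match l with
      | Sum.inl _ => {Sum.inl ⟨κ, by omega⟩}
      | Sum.inr (Sum.inl u) => {Sum.inr (Sum.inr (Sum.inl u.1))}
      | Sum.inr (Sum.inr c) => Dc c
    have hD : ∀ (l : Unit ⊕ ({u : Fin M // u ∈ W} ⊕ Fin L)) (x : I → Bool),
        (∃ n ∈ (Dj l).image (fun j => (e j).val), ∃ c : Circ I, fam[n]? = some c ∧
          c.eval x = true) ↔ ∃ j ∈ Dj l, (circ j).eval x = true := by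
      intro l x
      constructor
      · rintro ⟨n, hn, c, hc, hx⟩
        rw [mem_image] at hn
        obtain ⟨j, hj, rfl⟩ := hn
        rw [hfam j] at hc
        refine ⟨j, hj, ?_⟩
        rw [Option.some.injEq] at hc
        rw [hc]
        exact hx
      · rintro ⟨j, hj, hx⟩
        exact ⟨_, mem_image_of_mem _ hj, circ j, hfam j, hx⟩
    refine ⟨Unit ⊕ ({u : Fin M // u ∈ W} ⊕ Fin L), fun l => (Dj l).image (fun j => (e j).val),
      ?_, ?_⟩
    · intro l
      refine card_image_le.trans ?_
      rcases l with _ | u | c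
      · change (({Sum.inl ⟨κ, by omega⟩} : Finset J)).card ≤ _
        rw [card_singleton]
        omega
      · change (({Sum.inr (Sum.inr (Sum.inl u.1))} : Finset J)).card ≤ _
        rw [card_singleton]
        omega
      · change (Dc c).card ≤ _
        refine (card_insert_le _ _).trans ?_
        have a1 : (W.image (fun u => (Sum.inr (Sum.inl (c, t1 u true)) : J))).card ≤ κ :=
          card_image_le.trans hW.le
        have a2 : ((insert (0 : Fin (M + 1)) (W.image Fin.succ)).image
            (fun lo => (Sum.inr (Sum.inr (Sum.inr (c, (lo, nx lo)))) : J))).card ≤ κ + 1 := by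
          refine card_image_le.trans ((card_insert_le _ _).trans ?_)
          exact Nat.add_le_add_right (card_image_le.trans hW.le) 1
        have a3 := card_union_le (W.image (fun u => (Sum.inr (Sum.inl (c, t1 u true)) : J)))
          ((insert (0 : Fin (M + 1)) (W.image Fin.succ)).image
            (fun lo => (Sum.inr (Sum.inr (Sum.inr (c, (lo, nx lo)))) : J)))
        omega
    · intro x
      simp only [hD]
      have hc : ∀ c : Fin L, (∃ T : Tm 1 M, (out (c, T)).eval x = true ∧ TmHolds W T) ↔
          ∃ j ∈ Dc c, (circ j).eval x = true := by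
        intro c
        constructor
        · rintro ⟨T, hT, hW'⟩
          obtain ⟨T, hT1⟩ := T
          rcases Nat.le_one_iff_eq_zero_or_eq_one.1 hT1 with h0 | h0
          · rw [card_eq_zero] at h0
            subst h0
            exact ⟨Sum.inr (Sum.inl (c, t0)), mem_insert_self _ _, hT⟩
          · rw [card_eq_one] at h0
            obtain ⟨⟨u, b⟩, rfl⟩ := h0
            have hu := hW' (u, b) (mem_singleton_self _)
            cases b
            · have hu' : u ∉ W := by simpa using hu
              obtain ⟨lo, hlo, hl1, hl2⟩ := (hgap u).1 hu'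
              refine ⟨Sum.inr (Sum.inr (Sum.inr (c, (lo, nx lo)))), ?_, ?_⟩
              · refine mem_insert_of_mem (mem_union_right _ (mem_image_of_mem _ hlo))
              · change (p_form_or out (gapS c lo (nx lo))).eval x = true
                rw [p_form_or_eval]
                refine ⟨(c, t1 u false), ?_, hT⟩
                simp only [gapS, mem_filter, mem_univ, true_and]
                exact ⟨u, hl1, hl2, rfl⟩
            · have hu' : u ∈ W := by simpa using hu
              refine ⟨Sum.inr (Sum.inl (c, t1 u true)), ?_, hT⟩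
              exact mem_insert_of_mem (mem_union_left _
                (mem_image_of_mem (fun u => (Sum.inr (Sum.inl (c, t1 u true)) : J)) hu'))
        · rintro ⟨j, hj, hx⟩
          rcases mem_insert.1 hj with rfl | hj
          · refine ⟨t0, hx, ?_⟩
            intro l hl
            exact absurd hl (notMem_empty l)
          · rcases mem_union.1 hj with hj | hj
            · rw [mem_image] at hj
              obtain ⟨u, hu, rfl⟩ := hj
              refine ⟨t1 u true, hx, ?_⟩
              intro l hl
              have : l = (u, true) := mem_singleton.1 hl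
              subst this
              simpa using hu
            · rw [mem_image] at hj
              obtain ⟨lo, hlo, rfl⟩ := hj
              change (p_form_or out (gapS c lo (nx lo))).eval x = true at hx
              rw [p_form_or_eval] at hx
              obtain ⟨⟨c', T⟩, hjS, hx⟩ := hx
              simp only [gapS, mem_filter, mem_univ, true_and] at hjS
              obtain ⟨rfl, u, hu1, hu2, rfl⟩ := hjS
              refine ⟨t1 u false, hx, ?_⟩
              intro l hl
              have : l = (u, false) := mem_singleton.1 hl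
              subst this
              have := (hgap u).2 ⟨lo, hlo, hu1, hu2⟩
              simpa using this
      constructor
      · rintro ⟨h1, h2, h3⟩ l
        rcases l with _ | u | c
        · exact ⟨_, mem_singleton_self _, h1⟩
        · refine ⟨_, mem_singleton_self _, ?_⟩
          change (p_form_or out (occS u.1)).eval x = true
          rw [p_form_or_eval]
          obtain ⟨i, T, hx, hb⟩ := h2 u.1 u.2
          refine ⟨(i, T), ?_, hx⟩
          simp only [occS, mem_filter, mem_univ, true_and]
          exact hb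
        · exact (hc c).1 (h3 c)
      · intro hl
        refine ⟨?_, ?_, ?_⟩
        · obtain ⟨j, hj, hx⟩ := hl (Sum.inl ())
          have : j = Sum.inl ⟨κ, by omega⟩ := mem_singleton.1 hj
          subst this
          exact hx
        · intro u hu
          obtain ⟨j, hj, hx⟩ := hl (Sum.inr (Sum.inl ⟨u, hu⟩))
          have : j = Sum.inr (Sum.inr (Sum.inl u)) := mem_singleton.1 hj
          subst this
          change (p_form_or out (occS u)).eval x = true at hx
          rw [p_form_or_eval] at hx
          obtain ⟨⟨i, T⟩, hjS, hx⟩ := hx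
          simp only [occS, mem_filter, mem_univ, true_and] at hjS
          exact ⟨i, T, hx, hjS⟩
        · intro c
          exact (hc c).2 (hl (Sum.inr (Sum.inr c)))

end Pool.Agent.Lib.MP_b4f117_lc.AC
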