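import Pool.Agent.Lib.MP_b4f117_lc.AC.Stm

/-!
# piece [EW lit]: literals have certificates
-/

set_option autoImplicit false

namespace Pool.Agent.Lib.MP_b4f117_lc.AC

theorem p_lit : S_lit := by
  intro G _ _ q A _ e b
  have key : ∀ x : Ent G q A → Bool, ∃ U : Finset (Vx G q A), U.card ≤ Fintype.card G ∧
      ∀ x' : Ent G q A → Bool, (∀ e', Wi e' U → x' e' = x e') → x' e = x e := by
    intro x
    refine ⟨Finset.univ.image (fun g => (g, e g)), ?_, ?_⟩
    · exact Finset.card_image_le.trans (by simp)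
    · intro x' h
      refine h e (fun g => ?_)
      exact Finset.mem_image.mpr ⟨g, Finset.mem_univ g, rfl⟩
  constructor
  · intro x hx
    obtain ⟨U, hU, h⟩ := key x
    exact ⟨U, hU, fun x' hx' => (h x' hx').trans hx⟩
  · intro x hx
    obtain ⟨U, hU, h⟩ := key x
    refine ⟨U, hU, fun x' hx' h' => hx ?_⟩
    exact (h x' hx').symm.trans h'

end Pool.Agent.Lib.MP_b4f117_lc.AC
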