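import Pool.Agent.Lib.MP_b4f117_lc.AC.Stm

/-!
# Assembly
-/

set_option autoImplicit false

open Finset

namespace Pool.Agent.Lib.MP_b4f117_lc.AC

private theorem main_lay {r q d w H : ℕ} {A : Type} [Fintype A] [DecidableEq A]
    (hproj : S_proj) (hlit : S_lit) (hor : S_or) (hw : 2 * r ≤ w)
    (φ : Vx (Fin r ⊕ Fin r) q A ≃ Fin (nv r q A)) (ψ : Rw r q ≃ Fin (nc r q))
    (m : ℕ) (C : Fin m → Circ (Fin (nc r q) × Tm d (nv r q A))) (_ : H = 0 → True) :
    Lay w 0 (fun i => (C i).depth)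
      (fun i (x : Ent (Fin r ⊕ Fin r) q A → Bool) => (C i).eval (src d φ ψ x) = true) := by
  intro i hi
  have hi' : (C i).depth = 0 := Nat.le_zero.1 hi
  cases hC : C i with
  | gate b n f =>
    rw [hC, Circ.depth_gate] at hi'
    exact absurd hi' (Nat.succ_ne_zero _)
  | lit j b =>
    have hG : Fintype.card (Fin r ⊕ Fin r) ≤ w := by
      simp
      omega
    have ev : ∀ x : Ent (Fin r ⊕ Fin r) q A → Bool,
        ((Circ.lit j b).eval (src d φ ψ x) = true ↔ src d φ ψ x j = b) := fun x =>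
      Circ.eval_lit _ _ _
    simp only [hC, ev]
    rcases hproj r q d φ ψ j with ⟨b', hb'⟩ | ⟨e, he⟩
    · simp only [hb']
      exact ⟨(hor w).2.1 _, (hor w).2.1 _⟩
    · simp only [he]
      obtain ⟨h1, h2⟩ := hlit e b
      exact ⟨(hor _).2.2 _ w hG h1, (hor _).2.2 _ w hG h2⟩

/-- the input of level `0` with the anchors planted -/
private noncomputable def pl {r q : ℕ} (y : (Fin r → Fin q) × (Fin r → Fin q) → Bool) :
    Ent (Fin r ⊕ Fin r) q Unit → Bool := fun e =>
  if rcol e = lcol e then true else y (lcol e, rcol e)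

private theorem pl_anchor {r q : ℕ} (y : (Fin r → Fin q) × (Fin r → Fin q) → Bool)
    (a : Fin r → Fin q) : pl y (fun g => (Sum.elim a a g, ())) = true := by
  have h : rcol (fun g => (Sum.elim a a g, ()) : Ent (Fin r ⊕ Fin r) q Unit) =
      lcol (fun g => (Sum.elim a a g, ()) : Ent (Fin r ⊕ Fin r) q Unit) := rfl
  simp only [pl, h, if_true]

private theorem pl_main {r q : ℕ} (y : (Fin r → Fin q) × (Fin r → Fin q) → Bool)
    (a b : Fin r → Fin q) (h : b ≠ a) : pl y (fun g => (Sum.elim a b g, ())) = y (a, b) := by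
  have h1 : rcol (fun g => (Sum.elim a b g, ()) : Ent (Fin r ⊕ Fin r) q Unit) = b := rfl
  have h2 : lcol (fun g => (Sum.elim a b g, ()) : Ent (Fin r ⊕ Fin r) q Unit) = a := rfl
  simp only [pl, h1, h2, h, if_false]

private theorem main_sol {r q B Q H : ℕ} [NeZero Q] (hemb : S_emb)
    (b : Be (Fin r ⊕ Fin r) q B H) (z : Ent (Fin r ⊕ Fin r) q (Lv B H) → Fin Q)
    (hz : ¬ ∃ s, s ≠ pt H b ∧ ∀ a : Fin r → Fin q,
      ent s (Sum.elim a a) ≠ ent (pt H b) (Sum.elim a a) → z (ent s (Sum.elim a a)) = 0)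
    (y : (Fin r → Fin q) × (Fin r → Fin q) → Bool) :
    (∃ s, Sol (Emb H b z (pl y)) s) ↔ ∀ a, ∃ b', b' ≠ a ∧ y (a, b') = true := by
  obtain ⟨e1, e2⟩ := hemb H b z (pl y)
  constructor
  · rintro ⟨s, hs⟩
    have hss : s = pt H b := by
      by_contra hne
      apply hz
      refine ⟨s, hne, fun a ha => ?_⟩
      by_contra hza
      have h1 := (hs a).1
      have h2 : ent s (Sum.elim a a) ≠
          ent (pt H b) (fun g => (ent s (Sum.elim a a) g).1) := ha
      rw [e2 _ h2] at h1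
      exact hza (of_decide_eq_true h1)
    subst hss
    intro a
    obtain ⟨b', hb', hx⟩ := (hs a).2
    rw [e1, pl_main y a b' hb'] at hx
    exact ⟨b', hb', hx⟩
  · intro h
    refine ⟨pt H b, fun a => ⟨?_, ?_⟩⟩
    · rw [e1, pl_anchor]
    · obtain ⟨b', hb', hx⟩ := h a
      exact ⟨b', hb', by rw [e1, pl_main y a b' hb', hx]⟩

private theorem main_count {X : Type} [Fintype X] [DecidableEq X] :
    Nat.card {e : X → X // ∀ i, e i ≠ i} = (Fintype.card X - 1) ^ Fintype.card X := by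
  classical
  have e1 : {e : X → X // ∀ i, e i ≠ i} ≃ (∀ i : X, {x : X // x ≠ i}) :=
    { toFun := fun e i => ⟨e.1 i, e.2 i⟩
      invFun := fun f => ⟨fun i => (f i).1, fun i => (f i).2⟩
      left_inv := fun _ => rfl
      right_inv := fun _ => rfl }
  rw [Nat.card_congr e1, Nat.card_pi]
  have h : ∀ i : X, Nat.card {x : X // x ≠ i} = Fintype.card X - 1 := by
    intro i
    rw [Nat.card_eq_fintype_card, Fintype.card_subtype_compl, Fintype.card_subtype_eq]
  rw [Finset.prod_congr rfl (fun i _ => h i), Finset.prod_const, Finset.card_univ]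

/-- the zeros of one output condition have small certificates -/
private theorem main_cert {r q B Q H w P m : ℕ} [NeZero Q] {I : Type}
    (hecert : S_ecert) (hor : S_or) (b : Be (Fin r ⊕ Fin r) q B H)
    (z : Ent (Fin r ⊕ Fin r) q (Lv B H) → Fin Q) (Φ : (Ent (Fin r ⊕ Fin r) q (Lv B H) → Bool) → I → Bool)
    (fam : List (Circ I)) (C : Fin m → Circ I) (hC1 : ∀ c ∈ fam, ∃ i, C i = c)
    (hdep : ∀ c ∈ fam, c.depth ≤ H)
    (hlay : Lay w (0 + H) (fun i => (C i).depth)
      (fun i (y : Ent (Fin r ⊕ Fin r) q Unit → Bool) => (C i).eval (Φ (Emb H b z y)) = true))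
    (G : (I → Bool) → Prop) (Λ : Type) (D : Λ → Finset ℕ) (hD : ∀ l, (D l).card ≤ 2 * P + 2)
    (hG : ∀ x : I → Bool, G x ↔ ∀ l, ∃ n ∈ D l, ∃ c : Circ I, fam[n]? = some c ∧ c.eval x = true)
    (y : (Fin r → Fin q) × (Fin r → Fin q) → Bool) (hy : ¬ G (Φ (Emb H b z (pl y)))) :
    ∃ T : Finset ((Fin r → Fin q) × (Fin r → Fin q)), T.card ≤ (2 * P + 2) * w ^ (2 * r) ∧
      ∀ y' : (Fin r → Fin q) × (Fin r → Fin q) → Bool, (∀ p ∈ T, y' p = y p) →
        ¬ G (Φ (Emb H b z (pl y'))) := by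
  classical
  have key := hecert (G := Fin r ⊕ Fin r) (q := q) w (2 * P + 2)
    (fun y => G (Φ (Emb H b z y)))
    (fun n y => ∃ c : Circ I, fam[n]? = some c ∧ c.eval (Φ (Emb H b z y)) = true) Λ D hD
    (by
      intro l n _
      rcases hn : fam[n]? with _ | c
      · simp only [reduceCtorEq, false_and, exists_false, not_false_eq_true]
        exact (hor w).2.1 True
      · have hc : c ∈ fam := List.mem_of_getElem? hn
        obtain ⟨i, hi⟩ := hC1 c hc
        have := (hlay i (by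
          show (C i).depth ≤ 0 + H
          rw [hi, zero_add]
          exact hdep c hc)).2
        simp only [hi] at this
        simpa using this)
    (fun y => hG _) (pl y) hy
  obtain ⟨E, hE, hE'⟩ := key
  refine ⟨E.image (fun e => (lcol e, rcol e)), ?_, fun y' hy' => ?_⟩
  · refine Finset.card_image_le.trans ?_
    have : Fintype.card (Fin r ⊕ Fin r) = 2 * r := by
      simp
      omega
    rw [this] at hE
    exact hE
  · apply hE'
    intro e he
    have h1 := hy' _ (Finset.mem_image_of_mem (fun e => (lcol e, rcol e)) he)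
    simp only [pl]
    split_ifs
    · rfl
    · exact h1

theorem p_main (hstages : S_stages) (hemb : S_emb) (hlv : S_lvcard) (huniq : S_uniq)
    (htree : S_tree) (hproj : S_proj) (hsrcsat : S_srcsat) (hsubs : S_subs) (hstr : S_str)
    (hform : S_form) (hecert : S_ecert) (hnum : S_num) (hlit : S_lit) (hor : S_or) : S_main := by
  classical
  rintro p d hp hd ⟨h, c, hred⟩
  obtain ⟨q, w, hq2, hw, hq8, hnum'⟩ := hnum p h c hp
  have hqpos : 0 < q := by omega
  -- abbreviations
  let r := p + 1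
  let B := 2 ^ q
  let H := h + 1
  let Q := (2 ^ (H + 1)) ^ (2 * r)
  let A := Lv B H
  haveI : NeZero Q := ⟨by positivity⟩
  have hQ2 : 2 ≤ Q := by
    calc 2 = 2 ^ 1 := rfl
      _ ≤ 2 ^ ((H + 1) * (2 * r)) := Nat.pow_le_pow_right (by norm_num)
          (Nat.one_le_iff_ne_zero.2 (by positivity))
      _ = Q := by rw [pow_mul]
  have hA : Fintype.card A = B ^ H := hlv B H
  have hA' : Fintype.card A = 2 ^ (q * H) := by rw [hA, pow_mul]
  have hr2 : 2 ≤ r := by omega
  let G := Fin r ⊕ Fin r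
  have hG : Fintype.card G = 2 * r := by
    simp [G]
    omega
  let φ : Vx G q A ≃ Fin (nv r q A) := Fintype.equivFin _
  let ψ : Rw r q ≃ Fin (nc r q) := Fintype.equivFin _
  have hnv : nv r q A = 2 * (p + 1) * (q * (2 ^ q) ^ (h + 1)) := by
    show Fintype.card (G × (Fin q × A)) = _
    rw [Fintype.card_prod, Fintype.card_prod, hG, Fintype.card_fin, hA]
  have hnc : nc r q = 2 * q ^ (p + 1) + 2 * (p + 1) * q := by
    show Fintype.card (((Fin r → Fin q) ⊕ (Fin r → Fin q)) ⊕ (G × Fin q)) = _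
    rw [Fintype.card_sum, Fintype.card_sum, Fintype.card_prod, hG, Fintype.card_fin,
      Fintype.card_fun, Fintype.card_fin, Fintype.card_fin]
    ring
  obtain ⟨M, L, P, out, par, hM, hL, hP, hout, hpar, hx⟩ :=
    hred (nv r q A) (nc r q) (2 * r * q)
  have hS : 2 ^ (2 * r * q) * (nv r q A + nc r q + 2) =
      2 ^ (2 * (p + 1) * q) * (2 * (p + 1) * (q * (2 ^ q) ^ (h + 1)) +
        (2 * q ^ (p + 1) + 2 * (p + 1) * q) + 2) := by
    rw [hnv, hnc]
  rw [hnv, hnc] at hP
  rw [hS] at hM hL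
  simp only [hS] at hout hpar
  set s0 := (2 ^ (2 * (p + 1) * q) * (2 * (p + 1) * (q * (2 ^ q) ^ (h + 1)) +
    (2 * q ^ (p + 1) + 2 * (p + 1) * q) + 2)) ^ c with hs0
  have hs1 : 1 ≤ s0 := Nat.one_le_iff_ne_zero.2 (by positivity)
  obtain ⟨hineq1, hineq2⟩ := hnum' M L P s0 hM hL le_rfl hP
  obtain ⟨fam, hlen, hfam, hcond⟩ := hform M L P h s0 out par hout hpar hs1
  obtain ⟨m, C, hm, hC1, hC2, -⟩ := hsubs fam
  have hmg : m ≤ gates P M L s0 := by
    refine hm.trans ?_
    have h1 : (fam.map Circ.size).sum ≤ fam.length • (1 + (L * (2 * M + 1) + 1) * s0) := by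
      have := List.sum_le_card_nsmul (fam.map Circ.size) (1 + (L * (2 * M + 1) + 1) * s0)
        (by
          intro x hx
          obtain ⟨c', hc', rfl⟩ := List.mem_map.1 hx
          exact (hfam c' hc').2)
      simpa using this
    refine h1.trans ?_
    rw [smul_eq_mul]
    exact Nat.mul_le_mul_right _ hlen
  -- the gates
  let ev : Fin m → (Ent G q A → Bool) → Prop := fun i x => (C i).eval (src d φ ψ x) = true
  let δ : Fin m → ℕ := fun i => (C i).depth
  have hStr : Str δ ev := hstr m C (fun x => src d φ ψ x) hC2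
  have hLay : Lay w 0 δ ev :=
    main_lay (H := H) hproj hlit hor (by omega) φ ψ m C (fun _ => trivial)
  have hst := hstages (G := G) (q := q) (B := B) (Q := Q) w H 0 (Fin m) δ ev hQ2 hStr hLay
  rw [hG, Fintype.card_fin] at hst
  -- counting
  let Z := Ent G q A → Fin Q
  have hBpos : 0 < B := by positivity
  haveI : Nonempty (Fin Q) := ⟨0⟩
  haveI : Nonempty Z := inferInstance
  haveI hBe : Nonempty (Be G q B H) := by
    haveI : Nonempty (Fin B) := ⟨⟨0, hBpos⟩⟩
    have : ∀ j, Nonempty (Be G q B j) := by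
      intro j
      induction j with
      | zero => exact ⟨()⟩
      | succ j ih => exact ⟨(fun _ => Classical.arbitrary _, Classical.choice ih)⟩
    exact this H
  set N := Nat.card (Be G q B H × Z) with hN
  have hNpos : 0 < N := Nat.card_pos
  let bad1 : Set (Be G q B H × Z) := {p | ¬ Lay w (0 + H) δ (fun i y => ev i (Emb H p.1 p.2 y))}
  let bad2 : Set (Be G q B H × Z) := {p | ∃ s, s ≠ pt H p.1 ∧ ∀ a : Fin r → Fin q,
      ent s (Sum.elim a a) ≠ ent (pt H p.1) (Sum.elim a a) → p.2 (ent s (Sum.elim a a)) = 0}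
  have hb1 : 2 * Nat.card bad1 < N := by
    by_contra hcon
    push Not at hcon
    have h1 : Nat.card bad1 * B ^ (w + 1) ≤
        H * (2 * m * Cst (2 * r) w Q) * N := hst
    have h2 : 2 * (H * (2 * m * Cst (2 * r) w Q)) < B ^ (w + 1) := by
      refine lt_of_le_of_lt ?_ hineq1
      have : 2 * m * Cst (2 * r) w Q ≤ 2 * gates P M L s0 * Cst (2 * r) w Q :=
        Nat.mul_le_mul_right _ (Nat.mul_le_mul_left _ hmg)
      exact Nat.mul_le_mul_left _ (Nat.mul_le_mul_left _ this)
    have h3 : N * B ^ (w + 1) ≤ 2 * (Nat.card bad1 * B ^ (w + 1)) := by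
      calc N * B ^ (w + 1) ≤ (2 * Nat.card bad1) * B ^ (w + 1) := Nat.mul_le_mul_right _ hcon
        _ = _ := by ring
    have h4 : N * B ^ (w + 1) ≤ (2 * (H * (2 * m * Cst (2 * r) w Q))) * N := by
      calc _ ≤ _ := h3
        _ ≤ 2 * (H * (2 * m * Cst (2 * r) w Q) * N) := Nat.mul_le_mul_left _ h1
        _ = _ := by ring
    have h5 : B ^ (w + 1) ≤ 2 * (H * (2 * m * Cst (2 * r) w Q)) := by
      rw [mul_comm N] at h4
      exact Nat.le_of_mul_le_mul_right h4 hNpos
    omega
  have hb2 : 2 * Nat.card bad2 ≤ N := by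
    have e : (bad2 : Type) ≃ Σ b : Be G q B H, {z : Z // ∃ s, s ≠ pt H b ∧
        ∀ a : Fin r → Fin q, ent s (Sum.elim a a) ≠ ent (pt H b) (Sum.elim a a) →
          z (ent s (Sum.elim a a)) = 0} :=
      { toFun := fun p => ⟨p.1.1, ⟨p.1.2, p.2⟩⟩
        invFun := fun s => ⟨(s.1, s.2.1), s.2.2⟩
        left_inv := fun _ => rfl
        right_inv := fun _ => rfl }
    rw [Nat.card_congr e, Nat.card_sigma, Finset.mul_sum]
    calc _ ≤ ∑ _b : Be G q B H, Nat.card Z := Finset.sum_le_sum fun b _ =>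
          huniq r q H hr2 hA' hq8 (pt H b)
      _ = N := by
          rw [Finset.sum_const, smul_eq_mul, hN, Nat.card_prod, Finset.card_univ,
            Nat.card_eq_fintype_card (α := Be G q B H)]
  have hex : ∃ x : Be G q B H × Z, x ∉ bad1 ∧ x ∉ bad2 := by
    by_contra hcon
    push Not at hcon
    have hun : bad1 ∪ bad2 = Set.univ := by
      ext x
      simp only [Set.mem_union, Set.mem_univ, iff_true]
      by_cases hx1 : x ∈ bad1
      · exact Or.inl hx1
      · exact Or.inr (hcon x hx1)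
    have h1 : Nat.card (bad1 ∪ bad2 : Set (Be G q B H × Z)) ≤ Nat.card bad1 + Nat.card bad2 :=
      Set.ncard_union_le bad1 bad2
    rw [hun] at h1
    have h2 : Nat.card (Set.univ : Set (Be G q B H × Z)) = N := Nat.card_congr (Equiv.Set.univ _)
    omega
  obtain ⟨⟨b, z⟩, hx1, hx2⟩ := hex
  have hlay : Lay w (0 + H) δ (fun i y => ev i (Emb H b z y)) := not_not.1 hx1
  have hsol := main_sol (r := r) hemb b z hx2
  -- the output conditions
  let R := Fin r → Fin q
  let F : ℕ → Finset (Fin M) → (R × R → Bool) → Prop := fun κ W y =>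
    OutOK out par κ W (src d φ ψ (Emb H b z (pl y)))
  have hF : ∀ y : R × R → Bool, (∃ κ ≤ P, ∃ W : Finset (Fin M), W.card = κ ∧ F κ W y) ↔
      ∀ a, ∃ b', b' ≠ a ∧ y (a, b') = true := by
    intro y
    rw [← hsol y, ← hsrcsat r q d φ ψ _ (by omega) (by omega)]
    obtain ⟨κ, hκ, hκ1, hκ2⟩ := hx (src d φ ψ (Emb H b z (pl y)))
    rw [hκ2]
    constructor
    · rintro ⟨κ', hκ', W, hW, h1, h2, h3⟩
      have : κ' = κ := (hκ1 κ' hκ').1 h1
      subst this
      exact ⟨W, h2, hW, h3⟩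
    · rintro ⟨W, h2, hW, h3⟩
      exact ⟨κ, hκ, W, hW, (hκ1 κ hκ).2 rfl, h2, h3⟩
  have hdep : ∀ c' ∈ fam, c'.depth ≤ H := fun c' hc' => (hfam c' hc').1
  have htr : ∀ κ ≤ P, ∀ W : Finset (Fin M), W.card = κ →
      Nat.card {e : R → R // (∀ i, e i ≠ i) ∧ F κ W (fun p => decide (e p.1 = p.2))} ≤
        ((2 * P + 2) * w ^ (2 * r)) ^ Fintype.card R := by
    intro κ hκ W hW
    obtain ⟨Λ, D, hD, hG'⟩ := hcond κ hκ W hW
    refine htree R R (fun i x => x ≠ i) (F κ W) _ ?_ ?_
    · intro y hy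
      exact main_cert hecert hor b z (fun x => src d φ ψ x) fam C hC1 hdep hlay
        (OutOK out par κ W) Λ D hD hG' y hy
    · rintro y ⟨i, hi⟩ hFy
      obtain ⟨b', hb', hyb⟩ := (hF y).1 ⟨κ, hκ, W, hW, hFy⟩ i
      rw [hi b' hb'] at hyb
      exact Bool.false_ne_true hyb
  -- all selections are accepted
  have hall : Nat.card {e : R → R // ∀ i, e i ≠ i} ≤
      (P + 1) * (M + 1) ^ P * ((2 * P + 2) * w ^ (2 * r)) ^ Fintype.card R := by
    set t := ((2 * P + 2) * w ^ (2 * r)) ^ Fintype.card R with ht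
    let S : ℕ → Finset (Fin M) → Set (R → R) := fun κ W =>
      {e | (∀ i, e i ≠ i) ∧ F κ W (fun p => decide (e p.1 = p.2))}
    have hsub : {e : R → R | ∀ i, e i ≠ i} ⊆
        ⋃ κ ∈ Finset.range (P + 1), ⋃ W ∈ Finset.powersetCard κ (Finset.univ : Finset (Fin M)),
          S κ W := by
      intro e he
      have h1 : ∀ a, ∃ b', b' ≠ a ∧ (fun p : R × R => decide (e p.1 = p.2)) (a, b') = true :=
        fun a => ⟨e a, he a, by simp⟩
      obtain ⟨κ, hκ, W, hW, hFW⟩ := (hF (fun p : R × R => decide (e p.1 = p.2))).2 h1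
      simp only [Set.mem_iUnion]
      exact ⟨κ, Finset.mem_range.2 (by omega), W,
        Finset.mem_powersetCard.2 ⟨Finset.subset_univ _, hW⟩, he, hFW⟩
    have hcard : ∀ κ ∈ Finset.range (P + 1),
        ∀ W ∈ Finset.powersetCard κ (Finset.univ : Finset (Fin M)), (S κ W).ncard ≤ t := by
      intro κ hκ W hW
      exact htr κ (by have := Finset.mem_range.1 hκ; omega) W (Finset.mem_powersetCard.1 hW).2
    calc Nat.card {e : R → R // ∀ i, e i ≠ i} = ({e : R → R | ∀ i, e i ≠ i}).ncard := rfl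
      _ ≤ _ := Set.ncard_le_ncard hsub (Set.toFinite _)
      _ ≤ ∑ κ ∈ Finset.range (P + 1),
          (⋃ W ∈ Finset.powersetCard κ (Finset.univ : Finset (Fin M)), S κ W).ncard :=
            Finset.set_ncard_biUnion_le _ _
      _ ≤ ∑ κ ∈ Finset.range (P + 1),
          ∑ W ∈ Finset.powersetCard κ (Finset.univ : Finset (Fin M)), (S κ W).ncard :=
            Finset.sum_le_sum fun κ _ => Finset.set_ncard_biUnion_le _ _
      _ ≤ ∑ κ ∈ Finset.range (P + 1),
          ∑ W ∈ Finset.powersetCard κ (Finset.univ : Finset (Fin M)), t :=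
            Finset.sum_le_sum fun κ hκ => Finset.sum_le_sum fun W hW => hcard κ hκ W hW
      _ ≤ ∑ κ ∈ Finset.range (P + 1), (M + 1) ^ P * t := by
            refine Finset.sum_le_sum fun κ hκ => ?_
            rw [Finset.sum_const, smul_eq_mul, Finset.card_powersetCard, Finset.card_univ,
              Fintype.card_fin]
            refine Nat.mul_le_mul_right _ ?_
            calc M.choose κ ≤ M ^ κ := Nat.choose_le_pow M κ
              _ ≤ (M + 1) ^ κ := Nat.pow_le_pow_left (Nat.le_succ _) _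
              _ ≤ (M + 1) ^ P := Nat.pow_le_pow_right (Nat.succ_pos _)
                  (by have := Finset.mem_range.1 hκ; omega)
      _ = (P + 1) * (M + 1) ^ P * t := by
            rw [Finset.sum_const, smul_eq_mul, Finset.card_range]
            ring
  have hR : Fintype.card R = q ^ (p + 1) := by
    show Fintype.card (Fin r → Fin q) = _
    rw [Fintype.card_fun, Fintype.card_fin, Fintype.card_fin]
  rw [main_count, hR] at hall
  exact absurd hall (not_le.2 hineq2)

end Pool.Agent.Lib.MP_b4f117_lc.AC
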