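import Pool.Agent.Lib.MP_b4f117_lc.AC.Stm

set_option autoImplicit false

open Finset

namespace Pool.Agent.Lib.MP_b4f117_lc.AC

private theorem p_num_ev (A k : ℕ) : ∀ᶠ q : ℕ in Filter.atTop, A * q ^ k < 2 ^ q := by
  have h1 := tendsto_pow_const_div_const_pow_of_one_lt k (r := (2 : ℝ)) (by norm_num)
  have h2 : ∀ᶠ q : ℕ in Filter.atTop, (q : ℝ) ^ k / 2 ^ q < 1 / ((A : ℝ) + 1) :=
    h1.eventually (gt_mem_nhds (by positivity))
  filter_upwards [h2] with q hq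
  rw [div_lt_div_iff₀ (by positivity) (by positivity)] at hq
  have h3 : ((A * q ^ k : ℕ) : ℝ) < ((2 ^ q : ℕ) : ℝ) := by
    push_cast
    have h4 : (0 : ℝ) ≤ (q : ℝ) ^ k := by positivity
    nlinarith
  exact_mod_cast h3

private theorem p_num_N (p h q : ℕ) (hq : 1 ≤ q) (h1 : (4 * (p + 1) + 4) * q ^ (p + 1) < 2 ^ q) :
    2 * (p + 1) * (q * (2 ^ q) ^ (h + 1)) + (2 * q ^ (p + 1) + 2 * (p + 1) * q) + 2
      ≤ 2 ^ (q * (h + 2)) := by
  have e1 : 2 ^ (q * (h + 2)) = 2 ^ q * (2 ^ q) ^ (h + 1) := by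
    rw [← pow_mul, ← pow_add]
    congr 1
    ring
  have e2 : 1 ≤ (2 ^ q) ^ (h + 1) := Nat.one_le_iff_ne_zero.2 (by positivity)
  have e3 : q ≤ q ^ (p + 1) := Nat.le_self_pow (by omega) q
  have e4 : 1 ≤ q ^ (p + 1) := Nat.one_le_iff_ne_zero.2 (by positivity)
  rw [e1]
  set Y := (2 ^ q) ^ (h + 1) with hY
  set n := q ^ (p + 1) with hn
  have e5 : (p + 1) * q ≤ (p + 1) * n := Nat.mul_le_mul_left _ e3
  calc 2 * (p + 1) * (q * Y) + (2 * n + 2 * (p + 1) * q) + 2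
      = 2 * ((p + 1) * q) * Y + (2 * n + 2 * ((p + 1) * q) + 2) * 1 := by ring
    _ ≤ 2 * ((p + 1) * n) * Y + (2 * n + 2 * ((p + 1) * n) + 2 * n) * Y := by
        gcongr
        omega
    _ = (4 * (p + 1) + 4) * n * Y := by ring
    _ ≤ 2 ^ q * Y := Nat.mul_le_mul_right _ h1.le

private theorem p_num_gates (P M L s E F : ℕ) (hE : 1 ≤ E) (hF : 1 ≤ F) (hP : P + 1 ≤ F)
    (hM : M ≤ E) (hL : L ≤ E) (hs : s ≤ E) : gates P M L s ≤ 45 * (F * E ^ 6) := by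
  unfold gates
  have h1 : L * (2 * M + 1) ≤ 3 * E ^ 2 := by
    calc L * (2 * M + 1) ≤ E * (2 * E + E) := by gcongr
      _ = 3 * E ^ 2 := by ring
  have h2 : L * (M + 1) ^ 2 ≤ 4 * E ^ 3 := by
    calc L * (M + 1) ^ 2 ≤ E * (E + E) ^ 2 := by gcongr
      _ = 4 * E ^ 3 := by ring
  have hE2 : 1 ≤ E ^ 2 := Nat.one_le_iff_ne_zero.2 (by positivity)
  have hE3 : 1 ≤ E ^ 3 := Nat.one_le_iff_ne_zero.2 (by positivity)
  have hE23 : E ^ 2 ≤ E ^ 3 := Nat.pow_le_pow_right hE (by norm_num)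
  have hE13 : E ≤ E ^ 3 := Nat.le_self_pow (by norm_num) E
  have h3 : (P + 1) + L * (2 * M + 1) + M + L * (M + 1) ^ 2 ≤ 9 * (F * E ^ 3) := by
    have a1 : F ≤ F * E ^ 3 := Nat.le_mul_of_pos_right _ hE3
    have a2 : E ^ 3 ≤ F * E ^ 3 := Nat.le_mul_of_pos_left _ hF
    omega
  have h4 : 1 + (L * (2 * M + 1) + 1) * s ≤ 5 * E ^ 3 := by
    calc 1 + (L * (2 * M + 1) + 1) * s ≤ 1 + (3 * E ^ 2 + E ^ 2) * E := by gcongr
      _ = 1 + 4 * E ^ 3 := by ring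
      _ ≤ 5 * E ^ 3 := by omega
  calc ((P + 1) + L * (2 * M + 1) + M + L * (M + 1) ^ 2) * (1 + (L * (2 * M + 1) + 1) * s)
      ≤ (9 * (F * E ^ 3)) * (5 * E ^ 3) := Nat.mul_le_mul h3 h4
    _ = 45 * (F * E ^ 6) := by ring

theorem p_num : S_num := by
  intro p h c hp
  obtain ⟨C, hC⟩ : ∃ C, C = 2 * (p + 1) + h + 2 := ⟨_, rfl⟩
  obtain ⟨K, hK⟩ : ∃ K, K = C * c := ⟨_, rfl⟩
  obtain ⟨a, ha⟩ : ∃ a, a = c * C ^ p := ⟨_, rfl⟩
  obtain ⟨w, hw⟩ : ∃ w, w = 2 * (p + 1) + 6 * K + 1 := ⟨_, rfl⟩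
  obtain ⟨b, hb⟩ : ∃ b, b = (K + 1) * a + 1 := ⟨_, rfl⟩
  obtain ⟨D, hD⟩ : ∃ D, D = 2 ^ b * (2 * a + 2) * w ^ (2 * (p + 1)) := ⟨_, rfl⟩
  have hev := (((p_num_ev (8 * (p + 1)) 1).and (p_num_ev (4 * (p + 1) + 4) (p + 1))).and
    ((p_num_ev (a + 1) p).and (p_num_ev (180 * (h + 1) *
      Cst (2 * (p + 1)) w ((2 ^ (h + 2)) ^ (2 * (p + 1)))) 0))).and
    (Filter.eventually_ge_atTop (D + 2))
  obtain ⟨q, ⟨⟨hq1, hq2⟩, hq3, hq4⟩, hq5⟩ := hev.exists
  have hq0 : 1 ≤ q := by omega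
  refine ⟨q, w, by omega, by omega, by simpa using hq1.le, ?_⟩
  intro M L P s hM hL hs hP
  have hN := p_num_N p h q hq0 hq2
  set N := 2 * (p + 1) * (q * (2 ^ q) ^ (h + 1)) + (2 * q ^ (p + 1) + 2 * (p + 1) * q) + 2 with hNdef
  have hX : (2 ^ (2 * (p + 1) * q) * N) ^ c ≤ 2 ^ (q * K) := by
    calc (2 ^ (2 * (p + 1) * q) * N) ^ c ≤ (2 ^ (2 * (p + 1) * q) * 2 ^ (q * (h + 2))) ^ c := by
          gcongr
      _ = 2 ^ (q * K) := by
          rw [← pow_add, ← pow_mul, hK, hC]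
          congr 1
          ring
  have hlog : Nat.log 2 N ≤ q * (h + 2) := by
    calc Nat.log 2 N ≤ Nat.log 2 (2 ^ (q * (h + 2))) := Nat.log_mono_right hN
      _ = q * (h + 2) := Nat.log_pow (by norm_num) _
  have hPb : P ≤ a * q ^ p := by
    calc P ≤ c * (2 * (p + 1) * q + Nat.log 2 N) ^ p := hP
      _ ≤ c * (2 * (p + 1) * q + q * (h + 2)) ^ p := by gcongr
      _ = a * q ^ p := by
          have e : 2 * (p + 1) * q + q * (h + 2) = C * q := by rw [hC]; ring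
          rw [e, ha, mul_pow]
          ring
  have hqp : 1 ≤ q ^ p := Nat.one_le_iff_ne_zero.2 (by positivity)
  have hP1 : P + 1 ≤ (a + 1) * q ^ p := by
    calc P + 1 ≤ a * q ^ p + q ^ p := by omega
      _ = (a + 1) * q ^ p := by ring
  have hP2 : P + 1 ≤ 2 ^ q := hP1.trans hq3.le
  set E := 2 ^ (q * K) with hE
  have hE1 : 1 ≤ E := Nat.one_le_iff_ne_zero.2 (by positivity)
  constructor
  · have hg := p_num_gates P M L s E (2 ^ q) hE1 (Nat.one_le_iff_ne_zero.2 (by positivity)) hP2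
      (hM.trans hX) (hL.trans hX) (hs.trans hX)
    set Cc := Cst (2 * (p + 1)) w ((2 ^ (h + 2)) ^ (2 * (p + 1))) with hCc
    have e1 : (2 ^ q) ^ (w + 1) = (2 ^ q * E ^ 6) * ((2 ^ q) ^ (2 * (p + 1)) * 2 ^ q) := by
      rw [hE, hw]
      simp only [← pow_mul, ← pow_add]
      congr 1
      ring
    have e2 : 0 < 2 ^ q * E ^ 6 := by positivity
    calc 2 * ((h + 1) * (2 * gates P M L s * Cc))
        ≤ 2 * ((h + 1) * (2 * (45 * (2 ^ q * E ^ 6)) * Cc)) := by gcongr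
      _ = (2 ^ q * E ^ 6) * (180 * (h + 1) * Cc * q ^ 0) := by ring
      _ < (2 ^ q * E ^ 6) * 2 ^ q := Nat.mul_lt_mul_of_pos_left hq4 e2
      _ ≤ (2 ^ q * E ^ 6) * ((2 ^ q) ^ (2 * (p + 1)) * 2 ^ q) := by
          refine Nat.mul_le_mul_left _ (Nat.le_mul_of_pos_left _ (by positivity))
      _ = (2 ^ q) ^ (w + 1) := e1.symm
  · set n := q ^ (p + 1) with hn
    have hn1 : n = q * q ^ p := by rw [hn, pow_succ]; ring
    have hqn : q ≤ n := by
      rw [hn1]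
      exact Nat.le_mul_of_pos_right _ hqp
    have f1 : P + 1 ≤ 2 ^ n := hP2.trans (Nat.pow_le_pow_right (by norm_num) hqn)
    have f2 : (M + 1) ^ P ≤ 2 ^ ((K + 1) * a * n) := by
      have g1 : M + 1 ≤ 2 ^ (q * (K + 1)) := by
        calc M + 1 ≤ E + E := by
              have := hM.trans hX
              omega
          _ = 2 * 2 ^ (q * K) := by rw [hE]; ring
          _ ≤ 2 ^ q * 2 ^ (q * K) := by
              refine Nat.mul_le_mul_right _ ?_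
              calc 2 = 2 ^ 1 := by norm_num
                _ ≤ 2 ^ q := Nat.pow_le_pow_right (by norm_num) hq0
          _ = 2 ^ (q * (K + 1)) := by
              rw [← pow_add]
              congr 1
              ring
      calc (M + 1) ^ P ≤ (2 ^ (q * (K + 1))) ^ P := Nat.pow_le_pow_left g1 P
        _ ≤ (2 ^ (q * (K + 1))) ^ (a * q ^ p) := Nat.pow_le_pow_right (by positivity) hPb
        _ = 2 ^ ((K + 1) * a * n) := by
            rw [← pow_mul, hn1]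
            congr 1
            ring
    have f3 : (P + 1) * (M + 1) ^ P ≤ (2 ^ b) ^ n := by
      calc (P + 1) * (M + 1) ^ P ≤ 2 ^ n * 2 ^ ((K + 1) * a * n) := Nat.mul_le_mul f1 f2
        _ = (2 ^ b) ^ n := by
            rw [← pow_add, ← pow_mul, hb]
            congr 1
            ring
    have f4 : 2 ^ b * ((2 * P + 2) * w ^ (2 * (p + 1))) ≤ D * q ^ p := by
      calc 2 ^ b * ((2 * P + 2) * w ^ (2 * (p + 1)))
          = 2 ^ b * (2 * (P + 1) * w ^ (2 * (p + 1))) := by ring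
        _ ≤ 2 ^ b * (2 * ((a + 1) * q ^ p) * w ^ (2 * (p + 1))) := by gcongr
        _ = D * q ^ p := by
            rw [hD]
            ring
    have f5 : D * q ^ p < n - 1 := by
      have g1 : (D + 2) * q ^ p ≤ n := by
        rw [hn1]
        exact Nat.mul_le_mul_right _ hq5
      have g2 : (D + 2) * q ^ p = D * q ^ p + 2 * q ^ p := by ring
      omega
    have hn0 : n ≠ 0 := by omega
    calc (P + 1) * (M + 1) ^ P * ((2 * P + 2) * w ^ (2 * (p + 1))) ^ n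
        ≤ (2 ^ b) ^ n * ((2 * P + 2) * w ^ (2 * (p + 1))) ^ n := Nat.mul_le_mul_right _ f3
      _ = (2 ^ b * ((2 * P + 2) * w ^ (2 * (p + 1)))) ^ n := by rw [← mul_pow]
      _ ≤ (D * q ^ p) ^ n := Nat.pow_le_pow_left f4 n
      _ < (n - 1) ^ n := Nat.pow_lt_pow_left f5 hn0

end Pool.Agent.Lib.MP_b4f117_lc.AC
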