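import Pool.Agent.Lib.MP_b4f117_lc.AC.Stm

/-!
# [EW one] One stage
-/

set_option autoImplicit false

open Finset

namespace Pool.Agent.Lib.MP_b4f117_lc.AC

/-- the predicate or its negation -/
private def p_one_sg {X : Type} (b : Bool) (f : X → Prop) : X → Prop :=
  if b = true then f else fun x => ¬ f x

theorem p_one (hsw : S_sw) (hor : S_or) (hfill : S_fill) : S_one := by
  intro G _ _ q B Q _ A _ _ w d ι _ δ ev hQ hStr hLay
  classical
  set N := Nat.card ((Vx G q A → Fin B) × (Ent G q (A × Fin B) → Fin Q)) with hN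
  set C := Cst (Fintype.card G) w Q with hC
  -- the bad sets
  let T : ι × Bool → Finset ((Vx G q A → Fin B) × (Ent G q (A × Fin B) → Fin Q)) := fun k =>
    univ.filter fun p => Cert w (p_one_sg k.2 (ev k.1)) ∧
      ¬ Cert w (fun y => ¬ p_one_sg k.2 (ev k.1) (Fill p.1 p.2 y))
  have hT : ∀ k, (T k).card * B ^ (w + 1) ≤ C * N := by
    intro k
    by_cases hc : Cert w (p_one_sg k.2 (ev k.1))
    · have h := @hsw G _ _ q B Q _ A _ _ w (p_one_sg k.2 (ev k.1)) hQ hc
      have hcard : (T k).card = Nat.card {p : (Vx G q A → Fin B) × (Ent G q (A × Fin B) → Fin Q) //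
          ¬ Cert w (fun y => ¬ p_one_sg k.2 (ev k.1) (Fill p.1 p.2 y))} := by
        rw [Nat.card_eq_fintype_card, Fintype.card_subtype]
        congr 1
        ext p
        simp only [T, mem_filter, mem_univ, true_and, hc]
      rw [hcard]
      exact h
    · have h0 : T k = ∅ := by
        ext p
        simp only [T, mem_filter, mem_univ, true_and, hc, false_and, notMem_empty]
      rw [h0]
      simp
  have hsub : (univ.filter fun p : (Vx G q A → Fin B) × (Ent G q (A × Fin B) → Fin Q) =>
      ¬ Lay w (d + 1) δ (fun i y => ev i (Fill p.1 p.2 y))) ⊆ univ.biUnion T := by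
    intro p hp
    rw [mem_filter] at hp
    have hp2 := hp.2
    unfold Lay at hp2
    push Not at hp2
    obtain ⟨i, hi, hbc⟩ := hp2
    -- level exactly `d + 1`
    have hlev : δ i = d + 1 := by
      by_contra hne
      have hle : δ i ≤ d := by omega
      obtain ⟨h1, h2⟩ := hLay i hle
      apply hbc
      exact ⟨@hfill G _ _ q B Q _ A _ _ w (ev i) p.1 p.2 h1,
        @hfill G _ _ q B Q _ A _ _ w (fun x => ¬ ev i x) p.1 p.2 h2⟩
    rcases hStr i d hlev with ⟨S, hS, hev⟩ | ⟨S, hS, hev⟩
    · -- disjunction
      have hc : Cert w (ev i) := by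
        have h := (@hor G q (A × Fin B) w).1 S (fun s => ev s.1)
          (fun s => (hLay s.1 (hS s.1 s.2)).1)
        have he : (fun x => ∃ s : S, ev s.1 x) = ev i := by
          funext x
          apply propext
          rw [hev x]
          constructor
          · rintro ⟨s, hs⟩
            exact ⟨s.1, s.2, hs⟩
          · rintro ⟨i', hi', hx⟩
            exact ⟨⟨i', hi'⟩, hx⟩
        rw [he] at h
        exact h
      have hr := @hfill G _ _ q B Q _ A _ _ w (ev i) p.1 p.2 hc
      rw [mem_biUnion]
      refine ⟨(i, true), mem_univ _, ?_⟩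
      simp only [T, mem_filter, mem_univ, true_and]
      have e1 : p_one_sg true (ev i) = ev i := by simp [p_one_sg]
      rw [e1]
      refine ⟨hc, ?_⟩
      intro h
      exact hbc ⟨hr, h⟩
    · -- conjunction
      have hc : Cert w (fun x => ¬ ev i x) := by
        have h := (@hor G q (A × Fin B) w).1 S (fun s x => ¬ ev s.1 x)
          (fun s => (hLay s.1 (hS s.1 s.2)).2)
        have he : (fun x => ∃ s : S, ¬ ev s.1 x) = fun x => ¬ ev i x := by
          funext x
          apply propext
          rw [hev x]
          push Not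
          constructor
          · rintro ⟨s, hs⟩
            exact ⟨s.1, s.2, hs⟩
          · rintro ⟨i', hi', hx⟩
            exact ⟨⟨i', hi'⟩, hx⟩
        rw [he] at h
        exact h
      have hr := @hfill G _ _ q B Q _ A _ _ w (fun x => ¬ ev i x) p.1 p.2 hc
      rw [mem_biUnion]
      refine ⟨(i, false), mem_univ _, ?_⟩
      simp only [T, mem_filter, mem_univ, true_and]
      have e1 : p_one_sg false (ev i) = fun x => ¬ ev i x := by simp [p_one_sg]
      rw [e1]
      refine ⟨hc, ?_⟩
      intro h
      apply hbc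
      refine ⟨?_, hr⟩
      have he : (fun y => ¬ ¬ ev i (Fill p.1 p.2 y)) = fun y => ev i (Fill p.1 p.2 y) := by
        funext y
        exact propext not_not
      rw [he] at h
      exact h
  have hcard : Nat.card {p : (Vx G q A → Fin B) × (Ent G q (A × Fin B) → Fin Q) //
      ¬ Lay w (d + 1) δ (fun i y => ev i (Fill p.1 p.2 y))} =
      (univ.filter fun p : (Vx G q A → Fin B) × (Ent G q (A × Fin B) → Fin Q) =>
        ¬ Lay w (d + 1) δ (fun i y => ev i (Fill p.1 p.2 y))).card := by
    rw [Nat.card_eq_fintype_card, Fintype.card_subtype]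
  rw [hcard]
  calc (univ.filter fun p : (Vx G q A → Fin B) × (Ent G q (A × Fin B) → Fin Q) =>
        ¬ Lay w (d + 1) δ (fun i y => ev i (Fill p.1 p.2 y))).card * B ^ (w + 1)
      ≤ (∑ k : ι × Bool, (T k).card) * B ^ (w + 1) :=
        Nat.mul_le_mul_right _ ((card_le_card hsub).trans card_biUnion_le)
    _ = ∑ k : ι × Bool, (T k).card * B ^ (w + 1) := by rw [sum_mul]
    _ ≤ ∑ _k : ι × Bool, C * N := sum_le_sum fun k _ => hT k
    _ = 2 * Fintype.card ι * C * N := by
        rw [sum_const, card_univ, Fintype.card_prod, Fintype.card_bool, smul_eq_mul]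
        ring

end Pool.Agent.Lib.MP_b4f117_lc.AC
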