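import Pool.Agent.Lib.MP_b4f117_lc.AC.Stm

/-!
# MP_b4f117_lc : piece `[EW or]`
-/

set_option autoImplicit false

open Finset

namespace Pool.Agent.Lib.MP_b4f117_lc.AC

theorem p_or : S_or := by
  intro G q A w
  refine ⟨?_, ?_, ?_⟩
  · rintro S f hf x ⟨s, hs⟩
    obtain ⟨U, hU, hx⟩ := hf s x hs
    exact ⟨U, hU, fun x' hx' => ⟨s, hx x' hx'⟩⟩
  · intro P x hP
    exact ⟨∅, by simp, fun _ _ => hP⟩
  · intro f w' hw hf x hx
    obtain ⟨U, hU, h⟩ := hf x hx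
    exact ⟨U, hU.trans hw, h⟩

end Pool.Agent.Lib.MP_b4f117_lc.AC
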