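import Pool.Agent.Lib.MP_b4f117_lc.AC.Stm

/-!
# The source instances: solutions of weight `2 r q` are the transversals
-/

set_option autoImplicit false

open Finset

namespace Pool.Agent.Lib.MP_b4f117_lc.AC

section Src

variable {r q d : ℕ} {A : Type} [Fintype A]

private theorem p_srcsat_main (φ : Vx (Fin r ⊕ Fin r) q A ≃ Fin (nv r q A))
    (ψ : Rw r q ≃ Fin (nc r q)) (x : Ent (Fin r ⊕ Fin r) q A → Bool) (a : Fin r → Fin q)
    (T : Tm d (nv r q A)) :
    src d φ ψ x (ψ (Sum.inl (Sum.inl a)), T) = true ↔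
      ∃ e, lcol e = a ∧ rcol e ≠ a ∧ x e = true ∧ T.1 = tset φ e := by
  unfold src
  simp only [Equiv.symm_apply_apply, decide_eq_true_eq]

private theorem p_srcsat_anch (φ : Vx (Fin r ⊕ Fin r) q A ≃ Fin (nv r q A))
    (ψ : Rw r q ≃ Fin (nc r q)) (x : Ent (Fin r ⊕ Fin r) q A → Bool) (a : Fin r → Fin q)
    (T : Tm d (nv r q A)) :
    src d φ ψ x (ψ (Sum.inl (Sum.inr a)), T) = true ↔
      ∃ e, lcol e = a ∧ rcol e = a ∧ x e = true ∧ T.1 = tset φ e := by
  unfold src
  simp only [Equiv.symm_apply_apply, decide_eq_true_eq]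

private theorem p_srcsat_col (φ : Vx (Fin r ⊕ Fin r) q A ≃ Fin (nv r q A))
    (ψ : Rw r q ≃ Fin (nc r q)) (x : Ent (Fin r ⊕ Fin r) q A → Bool) (g : Fin r ⊕ Fin r)
    (c : Fin q) (T : Tm d (nv r q A)) :
    src d φ ψ x (ψ (Sum.inr (g, c)), T) = true ↔
      ∃ v : A, T.1 = {(φ (g, (c, v)), true)} := by
  unfold src
  simp only [Equiv.symm_apply_apply, decide_eq_true_eq]

/-- the set of the vertices of a transversal -/
private def p_srcsat_W (φ : Vx (Fin r ⊕ Fin r) q A ≃ Fin (nv r q A))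
    (s : (Fin r ⊕ Fin r) → Fin q → A) : Finset (Fin (nv r q A)) :=
  Finset.univ.image fun gc : (Fin r ⊕ Fin r) × Fin q => φ (gc.1, (gc.2, s gc.1 gc.2))

private theorem p_srcsat_mem (φ : Vx (Fin r ⊕ Fin r) q A ≃ Fin (nv r q A))
    (s : (Fin r ⊕ Fin r) → Fin q → A) (g : Fin r ⊕ Fin r) (c : Fin q) (v : A) :
    φ (g, (c, v)) ∈ p_srcsat_W φ s ↔ v = s g c := by
  unfold p_srcsat_W
  simp only [mem_image, mem_univ, true_and]
  constructor
  · rintro ⟨⟨g', c'⟩, h⟩
    have := φ.injective h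
    simp only [Prod.mk.injEq] at this
    obtain ⟨h1, h2, h3⟩ := this
    subst h1 h2
    exact h3.symm
  · rintro rfl
    exact ⟨(g, c), rfl⟩

private theorem p_srcsat_card (φ : Vx (Fin r ⊕ Fin r) q A ≃ Fin (nv r q A))
    (s : (Fin r ⊕ Fin r) → Fin q → A) : (p_srcsat_W φ s).card = 2 * r * q := by
  unfold p_srcsat_W
  rw [Finset.card_image_of_injective]
  · simp only [card_univ, Fintype.card_prod, Fintype.card_sum, Fintype.card_fin]
    ring
  · rintro ⟨g, c⟩ ⟨g', c'⟩ h
    have := φ.injective h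
    simp only [Prod.mk.injEq] at this
    obtain ⟨h1, h2, -⟩ := this
    subst h1 h2
    rfl

private theorem p_srcsat_tcard (φ : Vx (Fin r ⊕ Fin r) q A ≃ Fin (nv r q A))
    (e : Ent (Fin r ⊕ Fin r) q A) : (tset φ e).card ≤ 2 * r := by
  unfold tset
  refine Finset.card_image_le.trans ?_
  simp only [card_univ, Fintype.card_sum, Fintype.card_fin]
  omega

private theorem p_srcsat_holds (φ : Vx (Fin r ⊕ Fin r) q A ≃ Fin (nv r q A))
    (s : (Fin r ⊕ Fin r) → Fin q → A) (J : (Fin r ⊕ Fin r) → Fin q) (T : Tm d (nv r q A))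
    (hT : T.1 = tset φ (ent s J)) : TmHolds (p_srcsat_W φ s) T := by
  intro l hl
  rw [hT] at hl
  unfold tset at hl
  simp only [mem_image, mem_univ, true_and] at hl
  obtain ⟨g, rfl⟩ := hl
  simp only [ent, iff_true]
  rw [p_srcsat_mem]

end Src

theorem p_srcsat : S_srcsat := by
  intro r q d A _ _ φ ψ x h2r h1d
  constructor
  · rintro ⟨W, -, hcard, hcl⟩
    -- the transversal
    have h1 : ∀ g c, ∃ v, φ (g, (c, v)) ∈ W := by
      intro g c
      obtain ⟨T, hT, hW⟩ := hcl (ψ (Sum.inr (g, c)))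
      obtain ⟨v, hv⟩ := (p_srcsat_col φ ψ x g c T).mp hT
      refine ⟨v, ?_⟩
      have := hW (φ (g, (c, v)), true) (by rw [hv]; exact mem_singleton_self _)
      exact this.mpr rfl
    choose s hs using h1
    have hsub : p_srcsat_W φ s ⊆ W := by
      intro u hu
      unfold p_srcsat_W at hu
      simp only [mem_image, mem_univ, true_and] at hu
      obtain ⟨⟨g, c⟩, rfl⟩ := hu
      exact hs g c
    have hWe : p_srcsat_W φ s = W :=
      Finset.eq_of_subset_of_card_le hsub (by rw [hcard, p_srcsat_card])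
    -- entries of the clauses
    have hent : ∀ (e : Ent (Fin r ⊕ Fin r) q A) (T : Tm d (nv r q A)), T.1 = tset φ e →
        TmHolds W T → e = ent s (Sum.elim (lcol e) (rcol e)) := by
      intro e T hT hW
      have h2 : ∀ g, e g = ((e g).1, s g (e g).1) := by
        intro g
        have h3 := hW (φ (g, e g), true) (by
          rw [hT]
          unfold tset
          exact mem_image_of_mem (fun g => (φ (g, e g), true)) (mem_univ g))
        have h4 : φ (g, ((e g).1, (e g).2)) ∈ W := h3.mpr rfl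
        rw [← hWe, p_srcsat_mem] at h4
        exact Prod.ext rfl h4
      funext g
      rw [h2 g]
      rcases g with g | g
      · rfl
      · rfl
    refine ⟨s, fun a => ⟨?_, ?_⟩⟩
    · obtain ⟨T, hT, hW⟩ := hcl (ψ (Sum.inl (Sum.inr a)))
      obtain ⟨e, he1, he2, he3, he4⟩ := (p_srcsat_anch φ ψ x a T).mp hT
      have := hent e T he4 hW
      rw [he1, he2] at this
      rw [← this]
      exact he3
    · obtain ⟨T, hT, hW⟩ := hcl (ψ (Sum.inl (Sum.inl a)))
      obtain ⟨e, he1, he2, he3, he4⟩ := (p_srcsat_main φ ψ x a T).mp hT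
      have := hent e T he4 hW
      rw [he1] at this
      refine ⟨rcol e, he2, ?_⟩
      rw [← this]
      exact he3
  · rintro ⟨s, hs⟩
    have hsing : ∀ (g : Fin r ⊕ Fin r) (c : Fin q),
        ({(φ (g, (c, s g c)), true)} : Finset (Fin (nv r q A) × Bool)).card ≤ d := by
      intro g c
      rw [card_singleton]
      exact h1d
    refine ⟨p_srcsat_W φ s, ?_, p_srcsat_card φ s, ?_⟩
    · intro u hu
      unfold p_srcsat_W at hu
      simp only [mem_image, mem_univ, true_and] at hu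
      obtain ⟨⟨g, c⟩, rfl⟩ := hu
      refine ⟨ψ (Sum.inr (g, c)), ⟨{(φ (g, (c, s g c)), true)}, hsing g c⟩, ?_, true, ?_⟩
      · exact (p_srcsat_col φ ψ x g c _).mpr ⟨s g c, rfl⟩
      · exact mem_singleton_self _
    · intro i
      obtain ⟨ρ, rfl⟩ := ψ.surjective i
      rcases ρ with (a | a) | ⟨g, c⟩
      · obtain ⟨b, hb, hxb⟩ := (hs a).2
        refine ⟨⟨tset φ (ent s (Sum.elim a b)), (p_srcsat_tcard φ _).trans h2r⟩, ?_, ?_⟩
        · exact (p_srcsat_main φ ψ x a _).mpr ⟨ent s (Sum.elim a b), rfl, hb, hxb, rfl⟩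
        · exact p_srcsat_holds φ s _ _ rfl
      · refine ⟨⟨tset φ (ent s (Sum.elim a a)), (p_srcsat_tcard φ _).trans h2r⟩, ?_, ?_⟩
        · exact (p_srcsat_anch φ ψ x a _).mpr ⟨ent s (Sum.elim a a), rfl, rfl, (hs a).1, rfl⟩
        · exact p_srcsat_holds φ s _ _ rfl
      · refine ⟨⟨{(φ (g, (c, s g c)), true)}, hsing g c⟩, ?_, ?_⟩
        · exact (p_srcsat_col φ ψ x g c _).mpr ⟨s g c, rfl⟩
        · intro l hl
          have hl' : l = (φ (g, (c, s g c)), true) := mem_singleton.mp hl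
          rw [hl']
          simp only [iff_true]
          rw [p_srcsat_mem]

end Pool.Agent.Lib.MP_b4f117_lc.AC
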