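import Pool.Agent.Lib.MP_b4f117_lc.AC.Stm

/-!
# [EW str] The gates of circuits satisfy `Str`
-/

set_option autoImplicit false

open Finset

namespace Pool.Agent.Lib.MP_b4f117_lc.AC

theorem p_str : S_str := by
  intro I X m C Φ hcl i d hd
  simp only at hd
  rcases hC : C i with ⟨a, b⟩ | ⟨b, n, f⟩
  · rw [hC, Circ.depth_lit] at hd
    omega
  · have hdep : ∀ i', (∃ j, C i' = f j) → (C i').depth ≤ d := by
      rintro i' ⟨j, hj⟩
      rw [hC, Circ.depth_gate] at hd
      have h1 : (f j).depth ≤ Finset.univ.sup fun j => (f j).depth :=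
        Finset.le_sup (f := fun j => (f j).depth) (Finset.mem_univ j)
      rw [hj]
      omega
    cases b with
    | true =>
      left
      refine ⟨{i' | ∃ j, C i' = f j}, fun i' hi' => hdep i' hi', fun x => ?_⟩
      simp only [hC, Circ.eval_or, Set.mem_ofPred_eq]
      constructor
      · rintro ⟨j, hj⟩
        obtain ⟨i', hi'⟩ := hcl i true n f hC j
        exact ⟨i', ⟨j, hi'⟩, by rw [hi']; exact hj⟩
      · rintro ⟨i', ⟨j, hj⟩, h⟩
        exact ⟨j, by rw [← hj]; exact h⟩
    | false =>
      right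
      refine ⟨{i' | ∃ j, C i' = f j}, fun i' hi' => hdep i' hi', fun x => ?_⟩
      simp only [hC, Circ.eval_and, Set.mem_ofPred_eq]
      constructor
      · rintro h i' ⟨j, hj⟩
        rw [hj]
        exact h j
      · intro h j
        obtain ⟨i', hi'⟩ := hcl i false n f hC j
        have h2 := h i' ⟨j, hi'⟩
        rw [hi'] at h2
        exact h2

end Pool.Agent.Lib.MP_b4f117_lc.AC
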