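import Pool.Agent.Lib.MP_b4f117_lc.AC.Stm

/-!
# [EW subs] The gates of finitely many circuits
-/

set_option autoImplicit false

namespace Pool.Agent.Lib.MP_b4f117_lc.AC

/-- the subcircuits of a circuit -/
private def p_subs_l {I : Type} : Circ I → List (Circ I)
  | Circ.lit i b => [Circ.lit i b]
  | Circ.gate b n f => Circ.gate b n f :: (List.ofFn fun j => p_subs_l (f j)).flatten

private theorem p_subs_self {I : Type} (c : Circ I) : c ∈ p_subs_l c := by
  cases c with
  | lit i b => simp [p_subs_l]
  | gate b n f => simp [p_subs_l]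

private theorem p_subs_len {I : Type} (c : Circ I) : (p_subs_l c).length = c.size := by
  induction c with
  | lit i b => simp [p_subs_l, Circ.size]
  | gate b n f ih =>
    simp only [p_subs_l, Circ.size, List.length_cons, List.length_flatten, List.map_ofFn,
      List.sum_ofFn]
    rw [add_comm]
    congr 1
    exact Finset.sum_congr rfl fun j _ => ih j

private theorem p_subs_closed {I : Type} (c : Circ I) :
    ∀ b n (f : Fin n → Circ I), Circ.gate b n f ∈ p_subs_l c → ∀ j, f j ∈ p_subs_l c := by
  induction c with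
  | lit i b =>
    intro b' n f h
    simp [p_subs_l] at h
  | gate b n f ih =>
    intro b' n' f' h j
    rw [p_subs_l, List.mem_cons] at h
    rw [p_subs_l, List.mem_cons]
    right
    rw [List.mem_flatten]
    rcases h with h | h
    · cases h
      exact ⟨p_subs_l (f j), (List.mem_ofFn' _ _).mpr ⟨j, rfl⟩, p_subs_self _⟩
    · rw [List.mem_flatten] at h
      obtain ⟨l, hl, hm⟩ := h
      obtain ⟨i, rfl⟩ := (List.mem_ofFn' _ _).mp hl
      exact ⟨p_subs_l (f i), (List.mem_ofFn' _ _).mpr ⟨i, rfl⟩, ih i b' n' f' hm j⟩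

private theorem p_subs_depth {I : Type} (c : Circ I) :
    ∀ c' ∈ p_subs_l c, c'.depth ≤ c.depth := by
  induction c with
  | lit i b =>
    intro c' h
    simp only [p_subs_l, List.mem_singleton] at h
    rw [h]
  | gate b n f ih =>
    intro c' h
    rw [p_subs_l, List.mem_cons] at h
    rcases h with h | h
    · rw [h]
    · rw [List.mem_flatten] at h
      obtain ⟨l, hl, hm⟩ := h
      obtain ⟨i, rfl⟩ := (List.mem_ofFn' _ _).mp hl
      rw [Circ.depth_gate]
      refine le_trans (ih i c' hm) (le_trans ?_ (Nat.le_succ _))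
      exact Finset.le_sup (f := fun j => (f j).depth) (Finset.mem_univ i)

theorem p_subs : S_subs := by
  intro I fam
  let L : List (Circ I) := (fam.map p_subs_l).flatten
  refine ⟨L.length, L.get, ?_, ?_, ?_, ?_⟩
  · apply le_of_eq
    simp only [L, List.length_flatten, List.map_map]
    congr 1
    apply List.map_congr_left
    intro c _
    exact p_subs_len c
  · intro c hc
    have h : c ∈ L := List.mem_flatten.mpr ⟨p_subs_l c, List.mem_map_of_mem hc, p_subs_self c⟩
    exact List.mem_iff_get.mp h
  · intro i b n f hi j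
    have h : L.get i ∈ L := List.get_mem L i
    obtain ⟨l, hl, hm⟩ := List.mem_flatten.mp h
    obtain ⟨c, hc, rfl⟩ := List.mem_map.mp hl
    rw [hi] at hm
    have h2 : f j ∈ L := List.mem_flatten.mpr ⟨p_subs_l c, hl, p_subs_closed c b n f hm j⟩
    exact List.mem_iff_get.mp h2
  · intro i
    have h : L.get i ∈ L := List.get_mem L i
    obtain ⟨l, hl, hm⟩ := List.mem_flatten.mp h
    obtain ⟨c, hc, rfl⟩ := List.mem_map.mp hl
    exact ⟨c, hc, p_subs_depth c _ hm⟩

end Pool.Agent.Lib.MP_b4f117_lc.AC
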