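import Pool.Agent.Lib.MP_b4f117_lc.AC.Stm

/-!
# The tree lemma
-/

set_option autoImplicit false

open Finset

namespace Pool.Agent.Lib.MP_b4f117_lc.AC

open Classical in
private lemma p_tree_aux (R X : Type) [Fintype R] [Fintype X]
    (ok : R → X → Prop) (F : (R × X → Bool) → Prop) (t : ℕ)
    (h1 : ∀ y, ¬ F y → ∃ T : Finset (R × X), T.card ≤ t ∧
      ∀ y' : R × X → Bool, (∀ p ∈ T, y' p = y p) → ¬ F y')
    (h2 : ∀ y, (∃ i, ∀ x, ok i x → y (i, x) = false) → ¬ F y) (n : ℕ) :
    ∀ (D : Finset R) (p : R → X), Fintype.card R - D.card = n →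
      ((Finset.univ : Finset (R → X)).filter (fun e => (∀ i, ok i (e i)) ∧
        F (fun q => decide (e q.1 = q.2)) ∧ ∀ i ∈ D, e i = p i)).card ≤ t ^ n := by
  induction n with
  | zero =>
    intro D p hD
    have hDu : D = univ := by
      apply Finset.eq_univ_of_card
      have := Finset.card_le_univ D
      omega
    subst hDu
    rw [pow_zero, Finset.card_le_one]
    intro a ha b hb
    simp only [Finset.mem_filter, Finset.mem_univ, true_and, forall_const] at ha hb
    funext i
    rw [ha.2.2 i, hb.2.2 i]
  | succ n ih =>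
    intro D p hD
    obtain ⟨i0, hi0⟩ : ∃ i0, i0 ∉ D := by
      by_contra hcon
      push Not at hcon
      have : D = univ := Finset.eq_univ_iff_forall.2 hcon
      rw [this, Finset.card_univ] at hD
      omega
    obtain ⟨T, hT, hT'⟩ := h1 (fun q => decide (q.1 ∈ D ∧ p q.1 = q.2))
      (h2 _ ⟨i0, fun x _ => by simp [hi0]⟩)
    have hsub : ((Finset.univ : Finset (R → X)).filter (fun e => (∀ i, ok i (e i)) ∧
        F (fun q => decide (e q.1 = q.2)) ∧ ∀ i ∈ D, e i = p i)) ⊆
        (T.filter (fun q => q.1 ∉ D)).biUnion (fun q =>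
          (Finset.univ : Finset (R → X)).filter (fun e => (∀ i, ok i (e i)) ∧
            F (fun q => decide (e q.1 = q.2)) ∧
              ∀ i ∈ insert q.1 D, e i = Function.update p q.1 q.2 i)) := by
      intro e he
      simp only [Finset.mem_filter, Finset.mem_univ, true_and] at he
      obtain ⟨he1, he2, he3⟩ := he
      have hex : ∃ q ∈ T, decide (e q.1 = q.2) ≠ decide (q.1 ∈ D ∧ p q.1 = q.2) := by
        by_contra hcon
        push Not at hcon
        exact hT' _ hcon he2
      obtain ⟨q, hqT, hq⟩ := hex
      have hqD : q.1 ∉ D := by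
        intro hin
        apply hq
        rw [he3 q.1 hin]
        simp [hin]
      have heq : e q.1 = q.2 := by
        by_contra hne
        apply hq
        simp [hqD, hne]
      rw [Finset.mem_biUnion]
      refine ⟨q, by simp [hqT, hqD], ?_⟩
      simp only [Finset.mem_filter, Finset.mem_univ, true_and]
      refine ⟨he1, he2, fun i hi => ?_⟩
      by_cases hiq : i = q.1
      · subst hiq
        rw [Function.update_self, heq]
      · rw [Function.update_of_ne hiq]
        exact he3 i ((Finset.mem_insert.1 hi).resolve_left hiq)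
    calc _ ≤ _ := Finset.card_le_card hsub
      _ ≤ ∑ q ∈ T.filter (fun q => q.1 ∉ D), _ := Finset.card_biUnion_le
      _ ≤ ∑ q ∈ T.filter (fun q => q.1 ∉ D), t ^ n := by
        apply Finset.sum_le_sum
        intro q hq
        have hqD : q.1 ∉ D := (Finset.mem_filter.1 hq).2
        apply ih
        rw [Finset.card_insert_of_notMem hqD]
        omega
      _ = (T.filter (fun q => q.1 ∉ D)).card * t ^ n := by
        rw [Finset.sum_const, smul_eq_mul]
      _ ≤ t * t ^ n := by
        apply Nat.mul_le_mul_right
        exact (Finset.card_filter_le _ _).trans hT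
      _ = t ^ (n + 1) := by rw [pow_succ']

theorem p_tree : S_tree := by
  classical
  intro R X _ _ _ _ ok F t h1 h2
  rcases isEmpty_or_nonempty (R → X) with hE | ⟨⟨p⟩⟩
  · have : IsEmpty {e : R → X // (∀ i, ok i (e i)) ∧ F (fun p => decide (e p.1 = p.2))} :=
      ⟨fun e => hE.false e.1⟩
    rw [Nat.card_of_isEmpty]
    exact Nat.zero_le _
  · have h := p_tree_aux R X ok F t h1 h2 (Fintype.card R) ∅ p (by simp)
    refine le_trans (le_of_eq ?_) h
    rw [Nat.card_eq_fintype_card, Fintype.card_subtype]
    congr 1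
    ext e
    simp only [Finset.mem_filter, Finset.mem_univ, true_and, Finset.notMem_empty,
      false_imp_iff, implies_true, and_true]
    constructor
    · rintro ⟨a, b⟩
      refine ⟨a, ?_⟩
      exact (congrArg F (funext fun q => decide_eq_decide.2 Iff.rfl)).mp b
    · rintro ⟨a, b⟩
      refine ⟨a, ?_⟩
      exact (congrArg F (funext fun q => decide_eq_decide.2 Iff.rfl)).mp b

end Pool.Agent.Lib.MP_b4f117_lc.AC
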