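import Pool.Agent.Lib.MP_b4f117_lc.AC.Stm

set_option autoImplicit false

open Finset

namespace Pool.Agent.Lib.MP_b4f117_lc.AC

/-- functions vanishing on a set -/
private theorem p_uniq_van {E : Type} [Fintype E] [DecidableEq E] (Q : ℕ) [NeZero Q]
    (S : Finset E) :
    (univ.filter fun z : E → Fin Q => ∀ e ∈ S, z e = 0).card * Q ^ S.card
      = Q ^ Fintype.card E := by
  classical
  have h1 : (univ.filter fun z : E → Fin Q => ∀ e ∈ S, z e = 0)
      = Fintype.piFinset (fun e => if e ∈ S then ({0} : Finset (Fin Q)) else univ) := by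
    ext z
    simp only [mem_filter, mem_univ, true_and, Fintype.mem_piFinset]
    constructor
    · intro h e
      by_cases he : e ∈ S
      · simp [he, h e he]
      · simp [he]
    · intro h e he
      have := h e
      simpa [he] using this
  rw [h1, Fintype.card_piFinset]
  have h2 : ∀ e : E, (if e ∈ S then ({0} : Finset (Fin Q)) else univ).card
      = if e ∈ S then 1 else Q := by
    intro e
    split_ifs <;> simp
  simp only [h2]
  rw [prod_ite]
  simp only [prod_const_one, prod_const, one_mul]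
  rw [← pow_add]
  congr 1
  have h3 : (univ.filter fun e => e ∈ S) = S := by ext e; simp
  have h4 := card_filter_add_card_filter_not (s := (univ : Finset E)) (fun e => e ∈ S)
  rw [h3, card_univ] at h4
  omega

private theorem p_uniq_count (r q : ℕ) (i : Fin r) (D : Finset (Fin q)) :
    (univ.filter fun a : Fin r → Fin q => a i ∈ D).card = D.card * q ^ (r - 1) := by
  classical
  have h1 : (univ.filter fun a : Fin r → Fin q => a i ∈ D)
      = Fintype.piFinset (fun j => if j = i then D else univ) := by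
    ext a
    simp only [mem_filter, mem_univ, true_and, Fintype.mem_piFinset]
    constructor
    · intro h j
      by_cases hj : j = i
      · rw [if_pos hj, hj]
        exact h
      · simp [hj]
    · intro h
      have := h i
      simpa using this
  rw [h1, Fintype.card_piFinset]
  have h2 : ∀ j : Fin r, (if j = i then D else (univ : Finset (Fin q))).card
      = if j = i then D.card else q := by
    intro j
    split_ifs <;> simp
  simp only [h2]
  rw [prod_ite]
  simp only [prod_const]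
  have h3 : (univ.filter fun j : Fin r => j = i) = {i} := by ext e; simp
  have h4 := card_filter_add_card_filter_not (s := (univ : Finset (Fin r))) (fun e => e = i)
  rw [h3, card_univ, card_singleton, Fintype.card_fin] at h4
  rw [h3, card_singleton, pow_one]
  congr 2
  omega

private theorem p_uniq_exp (m : ℕ) (x : ℝ) (hx : 0 ≤ x) (h : 4 * ((m : ℝ) * x) ≤ 1) :
    2 * ((1 + x) ^ m - 1) ≤ 1 := by
  have h1 : (1 + x) ^ m ≤ Real.exp ((m : ℝ) * x) := by
    have h2 : 1 + x ≤ Real.exp x := by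
      have := Real.add_one_le_exp x
      linarith
    calc (1 + x) ^ m ≤ Real.exp x ^ m := pow_le_pow_left₀ (by positivity) h2 m
      _ = Real.exp ((m : ℝ) * x) := by rw [← Real.exp_nat_mul]
  have h3 : Real.exp ((m : ℝ) * x) ≤ 4 / 3 := by
    have h4 := Real.add_one_le_exp (-((m : ℝ) * x))
    have h5 : 3 / 4 ≤ Real.exp (-((m : ℝ) * x)) := by linarith
    rw [Real.exp_neg] at h5
    have h6 := Real.exp_pos ((m : ℝ) * x)
    rw [le_inv_comm₀ (by norm_num) h6] at h5
    calc Real.exp ((m : ℝ) * x) ≤ (3 / 4)⁻¹ := h5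
      _ = 4 / 3 := by norm_num
  linarith

theorem p_uniq : S_uniq := by
  classical
  intro r q H A _ _ _ hr hA hq s₀
  obtain ⟨Q, hQ⟩ : ∃ Q, Q = (2 ^ (H + 1)) ^ (2 * r) := ⟨_, rfl⟩
  have hNZ : NeZero Q := ⟨by rw [hQ]; positivity⟩
  have hQ0 : 0 < Q := Nat.pos_of_ne_zero hNZ.out
  -- the sets
  set V : ((Fin r ⊕ Fin r) → Fin q → A) → Finset (Ent (Fin r ⊕ Fin r) q A → Fin ((2 ^ (H + 1)) ^ (2 * r))) :=
    fun s => univ.filter fun z => ∀ a : Fin r → Fin q,
      ent s (Sum.elim a a) ≠ ent s₀ (Sum.elim a a) → z (ent s (Sum.elim a a)) = 0 with hV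
  set T : ((Fin r ⊕ Fin r) → Fin q → A) → Finset (Fin r → Fin q) :=
    fun s => univ.filter fun a => ent s (Sum.elim a a) ≠ ent s₀ (Sum.elim a a) with hT
  set D : ((Fin r ⊕ Fin r) → Fin q → A) → (Fin r ⊕ Fin r) → Finset (Fin q) :=
    fun s g => univ.filter fun c => s g c ≠ s₀ g c with hD
  obtain ⟨Zc, hZc⟩ : ∃ Zc, Zc = Nat.card (Ent (Fin r ⊕ Fin r) q A → Fin ((2 ^ (H + 1)) ^ (2 * r))) :=
    ⟨_, rfl⟩
  have hZ : Zc = ((2 ^ (H + 1)) ^ (2 * r)) ^ Fintype.card (Ent (Fin r ⊕ Fin r) q A) := by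
    rw [hZc, Nat.card_eq_fintype_card, Fintype.card_fun, Fintype.card_fin]
  -- one transversal
  have hinj : ∀ s : (Fin r ⊕ Fin r) → Fin q → A, Function.Injective
      (fun a : Fin r → Fin q => (ent s (Sum.elim a a) : Ent (Fin r ⊕ Fin r) q A)) := by
    intro s a b hab
    funext i
    have := congrArg Prod.fst (congrFun hab (Sum.inl i))
    simpa [ent] using this
  have hone : ∀ s, (V s).card * ((2 ^ (H + 1)) ^ (2 * r)) ^ (T s).card = Zc := by
    intro s
    have h1 := p_uniq_van ((2 ^ (H + 1)) ^ (2 * r)) ((T s).image fun a => ent s (Sum.elim a a))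
    rw [card_image_of_injective _ (hinj s), ← hZ] at h1
    rw [← h1]
    congr 2
    ext z
    simp [hV, hT]
  have hDT : ∀ s (g : Fin r ⊕ Fin r), (D s g).card * q ^ (r - 1) ≤ (T s).card := by
    intro s g
    rcases g with i | i
    · rw [← p_uniq_count r q i (D s (Sum.inl i))]
      refine card_le_card ?_
      intro a ha
      simp only [hD, mem_filter, mem_univ, true_and] at ha
      simp only [hT, mem_filter, mem_univ, true_and]
      intro hcon
      have := congrArg Prod.snd (congrFun hcon (Sum.inl i))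
      exact ha (by simpa [ent] using this)
    · rw [← p_uniq_count r q i (D s (Sum.inr i))]
      refine card_le_card ?_
      intro a ha
      simp only [hD, mem_filter, mem_univ, true_and] at ha
      simp only [hT, mem_filter, mem_univ, true_and]
      intro hcon
      have := congrArg Prod.snd (congrFun hcon (Sum.inr i))
      exact ha (by simpa [ent] using this)
  have hsumD : ∀ s, (∑ g, (D s g).card) * q ≤ 2 * r * (T s).card := by
    intro s
    have h1 : ∑ g, (D s g).card * q ^ (r - 1) ≤ ∑ _g : Fin r ⊕ Fin r, (T s).card :=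
      sum_le_sum fun g _ => hDT s g
    rw [sum_const, card_univ, Fintype.card_sum, Fintype.card_fin, smul_eq_mul, ← sum_mul] at h1
    calc (∑ g, (D s g).card) * q ≤ (∑ g, (D s g).card) * q ^ (r - 1) :=
          Nat.mul_le_mul_left _ (Nat.le_self_pow (by omega) q)
      _ ≤ (r + r) * (T s).card := h1
      _ = 2 * r * (T s).card := by ring
  -- weights
  obtain ⟨y, hy⟩ : ∃ y : ℝ, y = ((2 : ℝ) ^ ((H + 1) * q))⁻¹ := ⟨_, rfl⟩
  have hy0 : 0 < y := by rw [hy]; positivity
  have hwt : ∀ s : (Fin r ⊕ Fin r) → Fin q → A,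
      (∏ g, ∏ c, if s g c = s₀ g c then (1 : ℝ) else y) = y ^ (∑ g, (D s g).card) := by
    intro s
    rw [← prod_pow_eq_pow_sum]
    refine prod_congr rfl fun g _ => ?_
    rw [prod_ite, prod_const_one, one_mul, prod_const]
  have hcard : ∀ s, ((V s).card : ℝ) ≤ (Zc : ℝ) * ∏ g, ∏ c, if s g c = s₀ g c then (1 : ℝ) else y := by
    intro s
    rw [hwt s, hy, ← inv_pow, inv_pow, inv_pow, ← div_eq_mul_inv, le_div_iff₀ (by positivity)]
    have h1 : (2 ^ ((H + 1) * q)) ^ (∑ g, (D s g).card) ≤ ((2 ^ (H + 1)) ^ (2 * r)) ^ (T s).card := by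
      simp only [← pow_mul]
      refine Nat.pow_le_pow_right (by norm_num) ?_
      have := hsumD s
      calc (H + 1) * q * ∑ g, (D s g).card = (H + 1) * ((∑ g, (D s g).card) * q) := by ring
        _ ≤ (H + 1) * (2 * r * (T s).card) := Nat.mul_le_mul_left _ this
        _ = (H + 1) * (2 * r) * (T s).card := by ring
    have h2 : (V s).card * (2 ^ ((H + 1) * q)) ^ (∑ g, (D s g).card) ≤ Zc := by
      rw [← hone s]
      exact Nat.mul_le_mul_left _ h1
    exact_mod_cast h2
  have hsumw : ∑ s : (Fin r ⊕ Fin r) → Fin q → A, ∏ g, ∏ c, (if s g c = s₀ g c then (1 : ℝ) else y)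
      = (1 + ((Fintype.card A : ℝ) - 1) * y) ^ (2 * r * q) := by
    have h1 : ∀ g c, ∑ v : A, (if v = s₀ g c then (1 : ℝ) else y)
        = 1 + ((Fintype.card A : ℝ) - 1) * y := by
      intro g c
      rw [sum_ite, sum_const, sum_const]
      have h3 : (univ.filter fun v : A => v = s₀ g c) = {s₀ g c} := by ext e; simp
      have h4 := card_filter_add_card_filter_not (s := (univ : Finset A)) (fun e => e = s₀ g c)
      rw [h3, card_univ, card_singleton] at h4
      rw [h3, card_singleton, ← h4]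
      push_cast
      simp
    have h2 : ∀ g, ∑ σ : Fin q → A, ∏ c, (if σ c = s₀ g c then (1 : ℝ) else y)
        = (1 + ((Fintype.card A : ℝ) - 1) * y) ^ q := by
      intro g
      have := Finset.prod_univ_sum (fun _ : Fin q => (univ : Finset A))
        (fun c v => if v = s₀ g c then (1 : ℝ) else y)
      rw [Fintype.piFinset_univ] at this
      rw [← this]
      simp only [h1, prod_const, card_univ, Fintype.card_fin]
    have := Finset.prod_univ_sum (fun _ : Fin r ⊕ Fin r => (univ : Finset (Fin q → A)))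
        (fun g σ => ∏ c, if σ c = s₀ g c then (1 : ℝ) else y)
    rw [Fintype.piFinset_univ] at this
    rw [← this]
    simp only [h2, prod_const, card_univ, Fintype.card_sum, Fintype.card_fin]
    rw [← pow_mul]
    congr 1
    ring
  -- union bound
  have hbad : Nat.card {z : Ent (Fin r ⊕ Fin r) q A → Fin ((2 ^ (H + 1)) ^ (2 * r)) //
      ∃ s, s ≠ s₀ ∧ ∀ a : Fin r → Fin q, ent s (Sum.elim a a) ≠ ent s₀ (Sum.elim a a) →
        z (ent s (Sum.elim a a)) = 0} ≤ ∑ s ∈ univ.erase s₀, (V s).card := by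
    refine le_trans ?_ card_biUnion_le
    have e1 : Nat.card {z : Ent (Fin r ⊕ Fin r) q A → Fin ((2 ^ (H + 1)) ^ (2 * r)) //
        z ∈ (univ.erase s₀).biUnion V} = ((univ.erase s₀).biUnion V).card := by
      rw [Nat.card_eq_fintype_card, Fintype.card_coe]
    rw [← e1]
    refine Nat.card_le_card_of_injective (fun z => ⟨z.1, ?_⟩) ?_
    · obtain ⟨s, hs, hz⟩ := z.2
      rw [mem_biUnion]
      refine ⟨s, by simp [hs], ?_⟩
      simp only [hV, mem_filter, mem_univ, true_and]
      exact hz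
    · intro z z' hzz
      simp only [Subtype.mk.injEq] at hzz
      exact Subtype.ext hzz
  have hreal : 2 * ((∑ s ∈ univ.erase s₀, (V s).card : ℕ) : ℝ) ≤ (Zc : ℝ) := by
    have h1 : ((∑ s ∈ univ.erase s₀, (V s).card : ℕ) : ℝ)
        ≤ ∑ s ∈ univ.erase s₀, (Zc : ℝ) * ∏ g, ∏ c, if s g c = s₀ g c then (1 : ℝ) else y := by
      push_cast
      exact sum_le_sum fun s _ => hcard s
    have h2 : ∑ s ∈ univ.erase s₀, (Zc : ℝ) * ∏ g, ∏ c, (if s g c = s₀ g c then (1 : ℝ) else y)
        = (Zc : ℝ) * ((1 + ((Fintype.card A : ℝ) - 1) * y) ^ (2 * r * q) - 1) := by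
      rw [← mul_sum, ← hsumw, ← add_sum_erase univ _ (mem_univ s₀)]
      simp
    have h3 : (1 + ((Fintype.card A : ℝ) - 1) * y) ^ (2 * r * q)
        ≤ (1 + ((2 : ℝ) ^ q)⁻¹) ^ (2 * r * q) := by
      have h5 : (Fintype.card A : ℝ) * y = ((2 : ℝ) ^ q)⁻¹ := by
        rw [hA, hy]
        push_cast
        rw [add_mul, one_mul, pow_add, mul_comm H q]
        field_simp
      have h6 : (1 : ℝ) ≤ Fintype.card A := by
        rw [hA]
        push_cast
        exact one_le_pow₀ (by norm_num)
      refine pow_le_pow_left₀ ?_ ?_ _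
      · have : 0 ≤ ((Fintype.card A : ℝ) - 1) * y := mul_nonneg (by linarith) hy0.le
        linarith
      · rw [← h5]
        nlinarith
    have h4 := p_uniq_exp (2 * r * q) (((2 : ℝ) ^ q)⁻¹) (by positivity) (by
      have h7 : ((8 * r * q : ℕ) : ℝ) ≤ ((2 ^ q : ℕ) : ℝ) := by exact_mod_cast hq
      push_cast at h7 ⊢
      have h8 : 4 * (2 * (r : ℝ) * q * ((2 : ℝ) ^ q)⁻¹) = (8 * r * q) / 2 ^ q := by
        rw [div_eq_mul_inv]
        ring
      rw [h8, div_le_one (by positivity)]
      exact h7)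
    have h9 : (0 : ℝ) ≤ Zc := by positivity
    calc 2 * ((∑ s ∈ univ.erase s₀, (V s).card : ℕ) : ℝ)
        ≤ 2 * ((Zc : ℝ) * ((1 + ((Fintype.card A : ℝ) - 1) * y) ^ (2 * r * q) - 1)) := by
          rw [← h2]
          linarith
      _ ≤ 2 * ((Zc : ℝ) * ((1 + ((2 : ℝ) ^ q)⁻¹) ^ (2 * r * q) - 1)) := by gcongr
      _ = (Zc : ℝ) * (2 * ((1 + ((2 : ℝ) ^ q)⁻¹) ^ (2 * r * q) - 1)) := by ring
      _ ≤ (Zc : ℝ) * 1 := mul_le_mul_of_nonneg_left h4 h9
      _ = Zc := mul_one _
  have hnat : 2 * (∑ s ∈ univ.erase s₀, (V s).card) ≤ Zc := by exact_mod_cast hreal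
  rw [← hZc]
  omega

end Pool.Agent.Lib.MP_b4f117_lc.AC
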