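import Pool.Agent.Lib.MP_b4f117_lc.AC.Stm

/-!
# AC⁰ reductions: piece `proj`
-/

set_option autoImplicit false

namespace Pool.Agent.Lib.MP_b4f117_lc.AC

theorem p_proj_inj {r q : ℕ} {A : Type} [Fintype A] [DecidableEq A]
    (φ : Vx (Fin r ⊕ Fin r) q A ≃ Fin (nv r q A)) {e e' : Ent (Fin r ⊕ Fin r) q A}
    (h : tset φ e = tset φ e') : e = e' := by
  funext g
  have h1 : (φ (g, e g), true) ∈ tset φ e' := by
    rw [← h]
    exact Finset.mem_image.2 ⟨g, Finset.mem_univ _, rfl⟩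
  obtain ⟨g', -, h2⟩ := Finset.mem_image.1 h1
  have h3 := φ.injective (Prod.ext_iff.1 h2).1
  obtain ⟨h4, h5⟩ := Prod.ext_iff.1 h3
  simp only at h4 h5
  subst h4
  exact h5.symm

theorem p_proj_key {r q : ℕ} {A : Type} [Fintype A] [DecidableEq A]
    (φ : Vx (Fin r ⊕ Fin r) q A ≃ Fin (nv r q A)) (T : Finset (Fin (nv r q A) × Bool))
    (P : Ent (Fin r ⊕ Fin r) q A → Prop) (f : (Ent (Fin r ⊕ Fin r) q A → Bool) → Bool)
    (hf : ∀ x, f x = true ↔ ∃ e, P e ∧ x e = true ∧ T = tset φ e) :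
    (∃ b, ∀ x, f x = b) ∨ (∃ e, ∀ x, f x = x e) := by
  by_cases h : ∃ e, P e ∧ T = tset φ e
  · obtain ⟨e, he1, he2⟩ := h
    right
    refine ⟨e, fun x => ?_⟩
    rw [Bool.eq_iff_iff, hf]
    constructor
    · rintro ⟨e', -, h2, h3⟩
      rw [he2] at h3
      rw [p_proj_inj φ h3]
      exact h2
    · intro hx
      exact ⟨e, he1, hx, he2⟩
  · left
    refine ⟨false, fun x => ?_⟩
    rw [← Bool.not_eq_true, hf]
    rintro ⟨e, h1, -, h3⟩
    exact h ⟨e, h1, h3⟩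

theorem p_proj : S_proj := by
  intro r q d A _ _ φ ψ p
  rcases hψ : ψ.symm p.1 with (a | a) | ⟨g, c⟩
  · refine p_proj_key φ p.2.1 (fun e => lcol e = a ∧ rcol e ≠ a) (fun x => src d φ ψ x p) (fun x => ?_)
    simp only [src, hψ, decide_eq_true_iff, and_assoc]
  · refine p_proj_key φ p.2.1 (fun e => lcol e = a ∧ rcol e = a) (fun x => src d φ ψ x p) (fun x => ?_)
    simp only [src, hψ, decide_eq_true_iff, and_assoc]
  · left
    by_cases h : ∃ v : A, p.2.1 = {(φ (g, (c, v)), true)}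
    · refine ⟨true, fun x => ?_⟩
      simp only [src, hψ, decide_eq_true_iff]
      exact h
    · refine ⟨false, fun x => ?_⟩
      simp only [src, hψ, decide_eq_false_iff_not]
      exact h

end Pool.Agent.Lib.MP_b4f117_lc.AC
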